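import Mathlib

/-!
# Critical graphs: the definition
-/

namespace Pool.Agent.Helper53.Crit

/-- A graph `G` is `k`-critical if `χ(G) = k` and `χ(H) < k` for every proper subgraph `H`
of `G`. -/
def IsCritical {V : Type*} (k : ℕ) (G : SimpleGraph V) : Prop :=
  G.chromaticNumber = k ∧ ∀ H : G.Subgraph, H ≠ ⊤ → H.coe.chromaticNumber < k

end Pool.Agent.Helper53.Crit
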