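import Mathlib

/-!
# Base resolvability: definitions

Following Soukup and Soukup, a base of a space is *resolvable* if it can be partitioned into two
bases, and a space without isolated points is *base resolvable* if every base of it is resolvable.
-/

namespace Pool.Agent.Helper53.BaseRes

open TopologicalSpace

/-- `X` is dense in itself: it has no isolated points. -/
def NoIsolated (X : Type*) [TopologicalSpace X] : Prop :=
  ∀ x : X, ¬ IsOpen ({x} : Set X)

/-- The family `𝓑` can be partitioned into two bases of the space `X`. -/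
def ResolvableBase {X : Type*} [TopologicalSpace X] (𝓑 : Set (Set X)) : Prop :=
  ∃ 𝓑₀ 𝓑₁ : Set (Set X), 𝓑 = 𝓑₀ ∪ 𝓑₁ ∧ Disjoint 𝓑₀ 𝓑₁ ∧
    IsTopologicalBasis 𝓑₀ ∧ IsTopologicalBasis 𝓑₁

/-- `X` is base resolvable: it has no isolated points, and every base of `X` can be partitioned
into two bases of `X`. -/
def BaseResolvable (X : Type*) [TopologicalSpace X] : Prop :=
  NoIsolated X ∧ ∀ 𝓑 : Set (Set X), IsTopologicalBasis 𝓑 → ResolvableBase 𝓑

end Pool.Agent.Helper53.BaseRes
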