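import Mathlib
import Pool.Agent.Helper53.BaseResDefs

/-!
# Uncountable Cantor cubes are base resolvable
-/

namespace Pool.Agent.Helper53.BaseRes

open TopologicalSpace Set Cardinal

universe u

variable {P : Type u}

/-- the clopen set given by a finite set of requirements `x α = v` -/
def cyl (p : Finset (P × Bool)) : Set (P → Bool) := {x | ∀ q ∈ p, x q.1 = q.2}

lemma isOpen_cyl (p : Finset (P × Bool)) : IsOpen (cyl p) := by
  have : cyl p = ⋂ q ∈ p, (fun x : P → Bool => x q.1) ⁻¹' {q.2} := by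
    ext x; simp [cyl]
  rw [this]
  exact isOpen_biInter_finset fun q _ => (isOpen_discrete _).preimage (continuous_apply q.1)

lemma isClosed_cyl (p : Finset (P × Bool)) : IsClosed (cyl p) := by
  have : cyl p = ⋂ q ∈ p, (fun x : P → Bool => x q.1) ⁻¹' {q.2} := by
    ext x; simp [cyl]
  rw [this]
  exact isClosed_biInter fun q _ => (isClosed_discrete _).preimage (continuous_apply q.1)

/-- the basic neighbourhood of `x` depending on the coordinates in `F` -/
noncomputable def pat (F : Finset P) (x : P → Bool) : Finset (P × Bool) := by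
  classical exact F.image (fun α => (α, x α))

lemma mem_cyl_pat {F : Finset P} {x z : P → Bool} : z ∈ cyl (pat F x) ↔ ∀ α ∈ F, z α = x α := by
  classical
  simp [cyl, pat]

lemma exists_finset_subset {U : Set (P → Bool)} (hU : IsOpen U) {x : P → Bool} (hx : x ∈ U) :
    ∃ F : Finset P, ∀ z : P → Bool, (∀ α ∈ F, z α = x α) → z ∈ U := by
  rw [isOpen_pi_iff] at hU
  obtain ⟨F, u, hu, hsub⟩ := hU x hx
  refine ⟨F, fun z hz => hsub ?_⟩
  intro α hα
  rw [hz α hα]
  exact (hu α hα).2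

/-- the coordinates decided by a set -/
def dec (B : Set (P → Bool)) : Set P := {α | ∃ v, ∀ x ∈ B, x α = v}

lemma dec_finite {B : Set (P → Bool)} (hB : IsOpen B) (hne : B.Nonempty) : (dec B).Finite := by
  classical
  obtain ⟨x, hx⟩ := hne
  obtain ⟨F, hF⟩ := exists_finset_subset hB hx
  refine F.finite_toSet.subset ?_
  rintro α ⟨v, hv⟩
  by_contra hα
  have h1 := hv x hx
  have h2 := hv (Function.update x α (!(x α))) (hF _ fun β hβ => by
    rw [Function.update_of_ne]
    rintro rfl; exact hα hβ)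
  rw [Function.update_self, h1] at h2
  revert h2; cases v <;> simp

/-- a finite subfamily of a base covering `[p]` by subsets of `[p]` which decide `α` -/
lemma exists_cover {𝓑 : Set (Set (P → Bool))} (hB : IsTopologicalBasis 𝓑)
    (p : Finset (P × Bool)) (α : P) :
    ∃ 𝓒 : Set (Set (P → Bool)), 𝓒.Finite ∧ 𝓒 ⊆ 𝓑 ∧
      (∀ B ∈ 𝓒, B.Nonempty ∧ B ⊆ cyl p ∧ α ∈ dec B) ∧ cyl p ⊆ ⋃₀ 𝓒 := by
  classical
  have hc : IsCompact (cyl p) := (isClosed_cyl p).isCompact
  have h1 : ∀ x : P → Bool, x ∈ cyl p → ∃ B ∈ 𝓑, x ∈ B ∧ B ⊆ cyl p ∩ cyl {(α, x α)} := by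
    intro x hx
    exact hB.exists_subset_of_mem_open (show x ∈ cyl p ∩ cyl {(α, x α)} from ⟨hx, by simp [cyl]⟩)
      ((isOpen_cyl p).inter (isOpen_cyl _))
  choose! f hf1 hf2 hf3 using h1
  obtain ⟨t, hcov⟩ := hc.elim_nhds_subcover' (fun x hx => f x) (fun x hx =>
    (hB.isOpen (hf1 x hx)).mem_nhds (hf2 x hx))
  refine ⟨(fun x : cyl p => f x.1) '' (t : Set (cyl p)), t.finite_toSet.image _, ?_, ?_, ?_⟩
  · rintro _ ⟨x, _, rfl⟩; exact hf1 _ x.2
  · rintro _ ⟨x, _, rfl⟩
    refine ⟨⟨x.1, hf2 _ x.2⟩, fun z hz => (hf3 _ x.2 hz).1, x.1 α, fun z hz => ?_⟩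
    have := (hf3 _ x.2 hz).2
    simpa [cyl] using this
  · intro x hx
    obtain ⟨y, hy, hxy⟩ := Set.mem_iUnion₂.1 (hcov hx)
    exact ⟨_, ⟨y, hy, rfl⟩, hxy⟩

lemma noIsolated_cantor [Infinite P] : NoIsolated (P → Bool) := by
  classical
  intro x hx
  obtain ⟨F, hF⟩ := exists_finset_subset hx rfl
  obtain ⟨α, hα⟩ := Infinite.exists_notMem_finset F
  have h := hF (Function.update x α (!(x α))) (fun β hβ => by
    rw [Function.update_of_ne]
    rintro rfl; exact hα hβ)
  have h2 : Function.update x α (!(x α)) α = x α := by rw [Set.mem_singleton_iff.1 h]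
  rw [Function.update_self] at h2
  revert h2; cases x α <;> simp

theorem baseResolvable_cantor (hP : ℵ₀ < #P) : BaseResolvable (P → Bool) := by
  classical
  have : Infinite P := Cardinal.infinite_iff.2 hP.le
  refine ⟨noIsolated_cantor, fun 𝓑 hB => ?_⟩
  -- the requests
  let ι := Finset (P × Bool) × Bool
  have hι : #ι = #P := by
    have h1 : #(P × Bool) = #P := by
      rw [Cardinal.mk_prod, Cardinal.lift_uzero, Cardinal.mk_bool, Cardinal.lift_ofNat]
      exact Cardinal.mul_eq_left hP.le (Cardinal.natCast_lt_aleph0 (n := 2) |>.le.trans hP.le)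
        (by norm_num)
    have h2 : #(Finset (P × Bool)) = #P := by rw [Cardinal.mk_finset_of_infinite, h1]
    change #(Finset (P × Bool) × Bool) = #P
    rw [Cardinal.mk_prod, Cardinal.lift_uzero, h2, Cardinal.mk_bool, Cardinal.lift_ofNat]
    exact Cardinal.mul_eq_left hP.le (Cardinal.natCast_lt_aleph0 (n := 2) |>.le.trans hP.le)
      (by norm_num)
  obtain ⟨r, wo, hr⟩ := Cardinal.exists_ord_eq ι
  choose 𝓒 hC1 hC2 hC3 hC4 using fun (p : Finset (P × Bool)) (α : P) => exists_cover hB p α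
  -- the coordinates decided by a cover
  let D : ι → P → Set P := fun i α => ⋃ B ∈ 𝓒 i.1 α, dec B
  have hD : ∀ i α, (D i α).Finite := fun i α =>
    (hC1 i.1 α).biUnion fun B hB' => dec_finite (hB.isOpen (hC2 _ _ hB')) (hC3 _ _ B hB').1
  have hex : ∀ (i : ι) (g : ι → P), ∃ α : P, ∀ j, r j i → α ∉ D j (g j) := by
    intro i g
    by_contra hcon
    push Not at hcon
    have huniv : (⋃ j : {j // r j i}, D j.1 (g j.1)) = Set.univ := by
      ext α
      simp only [Set.mem_iUnion, Subtype.exists, Set.mem_univ, iff_true]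
      obtain ⟨j, hj, hα⟩ := hcon α
      exact ⟨j, hj, hα⟩
    have hcard : #{j // r j i} < #ι := by
      have := Cardinal.card_typein_lt (r := r) i hr
      rwa [Ordinal.card_typein] at this
    have h3 : #(⋃ j : {j // r j i}, D j.1 (g j.1)) ≤ #{j // r j i} * ℵ₀ := by
      refine (Cardinal.mk_iUnion_le _).trans ?_
      gcongr
      refine ciSup_le' fun j => (Cardinal.lt_aleph0_iff_set_finite.2 (hD _ _)).le
    have h4 : #{j // r j i} * ℵ₀ < #P := by
      refine Cardinal.mul_lt_of_lt hP.le ?_ hP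
      rwa [hι] at hcard
    rw [huniv, Cardinal.mk_univ] at h3
    exact absurd (h3.trans_lt h4) (lt_irrefl _)
  -- recursive choice of the coordinates
  let a : ι → P := wo.wf.fix (fun i rec =>
    if h : ∃ α : P, ∀ j, (hj : r j i) → α ∉ D j (rec j hj) then h.choose else Classical.arbitrary P)
  have ha : ∀ i j, r j i → a i ∉ D j (a j) := by
    intro i
    have hfix : a i = if h : ∃ α : P, ∀ j, (hj : r j i) → α ∉ D j (a j) then h.choose
        else Classical.arbitrary P := wo.wf.fix_eq _ i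
    have h : ∃ α : P, ∀ j, (hj : r j i) → α ∉ D j (a j) := hex i a
    rw [dif_pos h] at hfix
    intro j hj
    rw [hfix]
    exact h.choose_spec j hj
  have hdisj : ∀ i j : ι, r j i → ∀ B ∈ 𝓒 i.1 (a i), B ∉ 𝓒 j.1 (a j) := by
    intro i j hji B hBi hBj
    exact ha i j hji (Set.mem_iUnion₂.2 ⟨B, hBj, (hC3 _ _ B hBi).2.2⟩)
  have hdisj2 : ∀ i j : ι, i ≠ j → ∀ B ∈ 𝓒 i.1 (a i), B ∉ 𝓒 j.1 (a j) := by
    intro i j hij B hBi hBj
    rcases trichotomous_of r i j with h | h | h
    · exact hdisj j i h B hBj hBi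
    · exact hij h
    · exact hdisj i j h B hBi hBj
  have hbasis : ∀ 𝓓 : Set (Set (P → Bool)), 𝓓 ⊆ 𝓑 →
      (∀ p : Finset (P × Bool), ∃ i : ι, i.1 = p ∧ 𝓒 i.1 (a i) ⊆ 𝓓) →
      IsTopologicalBasis 𝓓 := by
    intro 𝓓 h1 h2
    refine isTopologicalBasis_of_isOpen_of_nhds (fun u hu => hB.isOpen (h1 hu)) ?_
    intro x U hxU hU
    obtain ⟨F, hF⟩ := exists_finset_subset hU hxU
    obtain ⟨i, hi, hsub⟩ := h2 (pat F x)
    have hx : x ∈ cyl i.1 := by rw [hi]; exact mem_cyl_pat.2 fun _ _ => rfl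
    obtain ⟨B, hB', hxB⟩ := hC4 i.1 (a i) hx
    refine ⟨B, hsub hB', hxB, fun z hz => hF z ?_⟩
    have := (hC3 _ _ B hB').2.1 hz
    rw [hi] at this
    exact mem_cyl_pat.1 this
  refine ⟨⋃ p, 𝓒 p (a (p, false)), 𝓑 \ ⋃ p, 𝓒 p (a (p, false)), ?_, disjoint_sdiff_right, ?_, ?_⟩
  · rw [Set.union_sdiff_cancel]
    exact Set.iUnion_subset fun p => hC2 _ _
  · refine hbasis _ (Set.iUnion_subset fun p => hC2 _ _) fun p => ⟨(p, false), rfl, ?_⟩
    exact Set.subset_iUnion (fun p => 𝓒 p (a (p, false))) p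
  · refine hbasis _ Set.sdiff_subset fun p => ⟨(p, true), rfl, fun B hB' => ⟨hC2 _ _ hB', ?_⟩⟩
    rw [Set.mem_iUnion]
    rintro ⟨q, hq⟩
    exact hdisj2 (p, true) (q, false) (fun h => by simpa using congrArg Prod.snd h) B hB' hq

end Pool.Agent.Helper53.BaseRes
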