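import Mathlib

/-!
# The combinatorial core

`Z h H` says that, after the history `h`, the finite set `H` has colour `0`.  A *run* is a sequence
of families of finite sets, infinitely many of which contain supersets of any given finite set.
We find a run which defeats one of the two colours.
-/

namespace Pool.Agent.Helper53.BaseRes

open Set

/-- the index set `ω^ω` -/
abbrev PP : Type := ℕ → ℕ

/-- families of finite subsets of `ω^ω` -/
abbrev MM : Type := Set (Finset PP)

/-- the first `n` terms of `y`, the last one at the head -/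
def ini (y : ℕ → MM) : ℕ → List MM
  | 0 => []
  | n + 1 => y n :: ini y n

/-- `y` contains, arbitrarily late, supersets of any given finite set -/
def Good (y : ℕ → MM) : Prop := ∀ (F : Finset PP) (n : ℕ), ∃ m ≥ n, ∃ H ∈ y m, F ⊆ H

lemma length_ini (y : ℕ → MM) (n : ℕ) : (ini y n).length = n := by
  induction n with
  | zero => rfl
  | succ n ih => simp [ini, ih]

/-- a sequence of histories, each extending the previous one by one move, comes from a run -/
lemma exists_run (h0 : List MM) : ∀ (h : ℕ → List MM) (a : ℕ → MM), h 0 = h0 →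
    (∀ j, h (j + 1) = a j :: h j) →
    ∃ y : ℕ → MM, ∀ j, ini y (h0.length + j) = h j ∧ y (h0.length + j) = a j := by
  induction h0 with
  | nil =>
    intro h a h0 hs
    refine ⟨a, fun j => ⟨?_, by simp⟩⟩
    rw [List.length_nil, Nat.zero_add]
    induction j with
    | zero => exact h0.symm
    | succ j ih => rw [ini, ih, hs]
  | cons x t ih =>
    intro h a h0 hs
    obtain ⟨y, hy⟩ := ih (fun j => Nat.casesOn j t h) (fun j => Nat.casesOn j x a) rfl (by
      intro j
      cases j with
      | zero => exact h0
      | succ j => exact hs j)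
    refine ⟨y, fun j => ?_⟩
    have := hy (j + 1)
    rw [show (x :: t).length + j = t.length + (j + 1) by simp; omega]
    exact this

variable (Z : List MM → Finset PP → Prop)

/-- the sets of colour `0` after the history `h` are cofinal -/
def Cof (h : List MM) : Prop := ∀ F : Finset PP, ∃ H, F ⊆ H ∧ Z h H

open Classical in
/-- if the sets of colour `0` after `h` are not cofinal, all supersets of `bad h` have colour `1` -/
noncomputable def bad (h : List MM) : Finset PP :=
  if hc : ∃ F : Finset PP, ∀ H, F ⊆ H → ¬ Z h H then hc.choose else ∅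

lemma bad_spec {h : List MM} (hc : ¬ Cof Z h) : ∀ H, bad Z h ⊆ H → ¬ Z h H := by
  have hc' : ∃ F : Finset PP, ∀ H, F ⊆ H → ¬ Z h H := by
    unfold Cof at hc; push Not at hc; exact hc
  rw [bad, dif_pos hc']
  exact hc'.choose_spec

/-- the two kinds of moves -/
def mv (h : List MM) : Option (ℕ × ℕ) → MM
  | none => {H | Z h H}
  | some (i, j) => {H | bad Z h ⊆ H ∧ ∀ α ∈ H, α ∈ bad Z h ∨ α i ≤ j}

/-- the history produced by a word of labels (the last label at the head) -/
def hist : List (Option (ℕ × ℕ)) → List MM
  | [] => []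
  | l :: w => mv Z (hist w) l :: hist w

/-- a position with cofinal colour `0` can be reached in `k` moves avoiding `α` -/
def Reach (α : PP) : ℕ → List (Option (ℕ × ℕ)) → Prop
  | 0, w => Cof Z (hist Z w)
  | k + 1, w => ∃ l, (∀ H ∈ mv Z (hist Z w) l, α ∉ H) ∧ Reach α k (l :: w)

/-- **The combinatorial core.** -/
theorem game :
    (∃ y : ℕ → MM, Good y ∧ ∃ α : PP, ∀ m, ∀ H ∈ y m, α ∈ H → Z (ini y m) H) ∨
    (∃ y : ℕ → MM, Good y ∧ ∃ n : ℕ, ∀ m, n ≤ m → ∀ H ∈ y m, ¬ Z (ini y m) H) := by
  classical
  by_cases hcase : ∃ α : PP, ∀ w, ∃ k, Reach Z α k w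
  · -- Case 1
    left
    obtain ⟨α, hα⟩ := hcase
    -- the next label
    have hnext : ∀ w, ∃ l : Option (ℕ × ℕ),
        (Cof Z (hist Z w) ∧ l = none) ∨
        (¬ Cof Z (hist Z w) ∧ (∀ H ∈ mv Z (hist Z w) l, α ∉ H) ∧
          Nat.find (hα (l :: w)) < Nat.find (hα w)) := by
      intro w
      by_cases hc : Cof Z (hist Z w)
      · exact ⟨none, Or.inl ⟨hc, rfl⟩⟩
      · have hs := Nat.find_spec (hα w)
        obtain ⟨k, hk⟩ : ∃ k, Nat.find (hα w) = k + 1 := by
          rcases Nat.eq_zero_or_pos (Nat.find (hα w)) with h | h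
          · rw [h] at hs; exact absurd hs hc
          · exact ⟨Nat.find (hα w) - 1, by omega⟩
        rw [hk] at hs
        obtain ⟨l, hl1, hl2⟩ := hs
        refine ⟨l, Or.inr ⟨hc, hl1, ?_⟩⟩
        rw [hk]
        exact Nat.lt_succ_of_le (Nat.find_min' _ hl2)
    choose next hnx using hnext
    let w : ℕ → List (Option (ℕ × ℕ)) := fun n => Nat.rec [] (fun _ v => next v :: v) n
    have hw : ∀ n, w (n + 1) = next (w n) :: w n := fun n => rfl
    obtain ⟨y, hy⟩ := exists_run [] (fun n => hist Z (w n))
      (fun n => mv Z (hist Z (w n)) (next (w n))) rfl (fun n => rfl)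
    have hy1 : ∀ j, ini y j = hist Z (w j) := fun j => by simpa using (hy j).1
    have hy2 : ∀ j, y j = mv Z (hist Z (w j)) (next (w j)) := fun j => by simpa using (hy j).2
    -- infinitely often we are at a cofinal position
    have hinf : ∀ N n, Nat.find (hα (w n)) ≤ N → ∃ m ≥ n, Cof Z (hist Z (w m)) := by
      intro N
      induction N with
      | zero =>
        intro n hn
        have hs := Nat.find_spec (hα (w n))
        rw [Nat.le_zero.1 hn] at hs
        exact ⟨n, le_rfl, hs⟩
      | succ N ih =>
        intro n hn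
        rcases hnx (w n) with h | h
        · exact ⟨n, le_rfl, h.1⟩
        · obtain ⟨m, hm, hc⟩ := ih (n + 1) (by rw [hw]; omega)
          exact ⟨m, by omega, hc⟩
    refine ⟨y, ?_, α, ?_⟩
    · intro F n
      obtain ⟨m, hm, hc⟩ := hinf _ n le_rfl
      obtain ⟨H, hFH, hZ⟩ := hc F
      refine ⟨m, hm, H, ?_, hFH⟩
      rcases hnx (w m) with h | h
      · rw [hy2, h.2]; exact hZ
      · exact absurd hc h.1
    · intro m H hH hαH
      rw [hy1]
      rw [hy2] at hH
      rcases hnx (w m) with h | h
      · rw [h.2] at hH; exact hH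
      · exact absurd hαH (h.2.1 H hH)
  · -- Case 2
    right
    push Not at hcase
    -- `hcase : ∀ α, ∃ w, ∀ k, ¬ Reach Z α k w`
    let C : Set PP := ⋃ w : List (Option (ℕ × ℕ)), (bad Z (hist Z w) : Set PP)
    have hC : C.Countable := Set.countable_iUnion fun w => (bad Z (hist Z w)).countable_toSet
    have hunb : ∃ (w : List (Option (ℕ × ℕ))) (i : ℕ), ∀ N, ∃ α : PP,
        (∀ k, ¬ Reach Z α k w) ∧ α ∉ C ∧ N < α i := by
      by_contra hcon
      push Not at hcon
      choose N hN using hcon
      -- enumerate `C`
      obtain ⟨c, hc⟩ : ∃ c : ℕ → PP, C ⊆ Set.range c := by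
        rcases C.eq_empty_or_nonempty with h | h
        · exact ⟨fun _ => 0, by rw [h]; exact Set.empty_subset _⟩
        · obtain ⟨c, hc⟩ := hC.exists_eq_range h
          exact ⟨c, hc.subset⟩
      let α : PP := fun n => (match (Encodable.decode n : Option (List (Option (ℕ × ℕ)))) with
        | some w => N w n
        | none => 0) + c n n + 1
      have hαC : α ∉ C := by
        intro h
        obtain ⟨n, hn⟩ := hc h
        have : c n n = α n := congrFun hn n
        simp only [α] at this
        omega
      obtain ⟨w, hw⟩ := hcase α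
      have h1 := hN w (Encodable.encode w) α hw hαC
      have h2 : α (Encodable.encode w) = N w (Encodable.encode w) +
          c (Encodable.encode w) (Encodable.encode w) + 1 := by
        simp only [α, Encodable.encodek]
      omega
    obtain ⟨w0, i, hw0⟩ := hunb
    let w : ℕ → List (Option (ℕ × ℕ)) := fun n => Nat.rec w0 (fun j v => some (i, j) :: v) n
    have hw : ∀ n, w (n + 1) = some (i, n) :: w n := fun n => rfl
    -- none of the positions has cofinal colour `0`
    have hnc : ∀ j, ¬ Cof Z (hist Z (w j)) := by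
      intro j
      obtain ⟨δ, hδ1, hδ2, hδ3⟩ := hw0 j
      have hblock : ∀ n, n ≤ j → ∀ k, ¬ Reach Z δ k (w n) := by
        intro n
        induction n with
        | zero => intro _; exact hδ1
        | succ n ih =>
          intro hn k hk
          refine ih (by omega) (k + 1) ⟨some (i, n), ?_, hk⟩
          intro H hH hδH
          rcases hH.2 δ hδH with h | h
          · exact hδ2 (Set.mem_iUnion.2 ⟨w n, h⟩)
          · omega
      exact hblock j le_rfl 0
    obtain ⟨y, hy⟩ := exists_run (hist Z w0) (fun n => hist Z (w n))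
      (fun n => mv Z (hist Z (w n)) (some (i, n))) rfl (fun n => rfl)
    refine ⟨y, ?_, (hist Z w0).length, ?_⟩
    · intro F n
      obtain ⟨j0, hj0⟩ : ∃ j0, ∀ α ∈ F, α i ≤ j0 := ⟨F.sup (fun α => α i), fun α hα =>
        Finset.le_sup (f := fun α : PP => α i) hα⟩
      refine ⟨(hist Z w0).length + (n + j0), by omega, bad Z (hist Z (w (n + j0))) ∪ F, ?_,
        Finset.subset_union_right⟩
      rw [(hy (n + j0)).2]
      refine ⟨Finset.subset_union_left, fun α hα => ?_⟩
      rcases Finset.mem_union.1 hα with h | h
      · exact Or.inl h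
      · exact Or.inr ((hj0 α h).trans (by omega))
    · intro m hm H hH
      obtain ⟨j, rfl⟩ := Nat.exists_eq_add_of_le hm
      rw [(hy j).1]
      rw [(hy j).2] at hH
      exact bad_spec Z (hnc j) H hH.1

end Pool.Agent.Helper53.BaseRes
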