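import Mathlib
import Pool.Agent.Helper53.BaseResDefs

/-!
# Metric spaces without isolated points are base resolvable
-/

namespace Pool.Agent.Helper53.BaseRes

open TopologicalSpace Set

/-- Any family of sets has a subfamily with the same union on which strict inclusion is
well founded. -/
lemma exists_isWF_subfamily {X : Type*} (𝓦 : Set (Set X)) :
    ∃ 𝓤 ⊆ 𝓦, 𝓤.IsWF ∧ ∀ x, (∃ W ∈ 𝓦, x ∈ W) → ∃ U ∈ 𝓤, x ∈ U := by
  classical
  let r : Set X → Set X → Prop := WellOrderingRel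
  have hwf : WellFounded r := WellOrderingRel.isWellOrder.wf
  refine ⟨{W | W ∈ 𝓦 ∧ ∃ x ∈ W, ∀ W' ∈ 𝓦, r W' W → x ∉ W'}, fun W hW => hW.1, ?_, ?_⟩
  · rw [Set.IsWF, Set.WellFoundedOn]
    refine Subrelation.wf (r := fun a b => r a.1 b.1) ?_ (InvImage.wf Subtype.val hwf)
    rintro ⟨A, hA⟩ ⟨B, hB⟩ hAB
    change A < B at hAB
    change r A B
    obtain ⟨x, hxA, hx⟩ := hA.2
    rcases trichotomous_of r A B with h | h | h
    · exact h
    · subst h; exact absurd hAB (lt_irrefl _)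
    · exact absurd (hAB.le hxA) (hx B hB.1 h)
  · rintro x ⟨W, hW, hxW⟩
    obtain ⟨U, ⟨hU, hxU⟩, hmin⟩ := hwf.has_min {W | W ∈ 𝓦 ∧ x ∈ W} ⟨W, hW, hxW⟩
    exact ⟨U, ⟨hU, x, hxU, fun W' hW' hr hxW' => hmin W' ⟨hW', hxW'⟩ hr⟩, hxU⟩

/-- Removing a family on which strict inclusion is well founded from a base leaves a base. -/
lemma isTopologicalBasis_diff {X : Type*} [TopologicalSpace X] [T1Space X] (hX : NoIsolated X)
    {𝓑 𝓦 : Set (Set X)} (hB : IsTopologicalBasis 𝓑) (hW : 𝓦.IsWF) :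
    IsTopologicalBasis (𝓑 \ 𝓦) := by
  refine isTopologicalBasis_of_isOpen_of_nhds (fun u hu => hB.isOpen hu.1) ?_
  intro x U hxU hU
  by_contra hcon
  push Not at hcon
  have hall : ∀ B ∈ 𝓑, x ∈ B → B ⊆ U → B ∈ 𝓦 := by
    intro B hBB hx hBU
    by_contra hBW
    exact hcon B ⟨hBB, hBW⟩ hx hBU
  obtain ⟨B₀, hB₀, hx₀, hU₀⟩ := hB.exists_subset_of_mem_open hxU hU
  have hwf : (({B | B ∈ 𝓑 ∧ x ∈ B ∧ B ⊆ U} : Set (Set X))).IsWF :=
    hW.mono (fun B hB => hall B hB.1 hB.2.1 hB.2.2)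
  have hne : (({B | B ∈ 𝓑 ∧ x ∈ B ∧ B ⊆ U} : Set (Set X))).Nonempty := ⟨B₀, hB₀, hx₀, hU₀⟩
  obtain ⟨hm1, hm2, hm3⟩ := hwf.min_mem hne
  set B := hwf.min hne with hBdef
  have hopen : IsOpen B := hB.isOpen hm1
  have hne2 : B ≠ {x} := fun h => hX x (h ▸ hopen)
  obtain ⟨y, hy, hyx⟩ : ∃ y ∈ B, y ≠ x := by
    by_contra h
    push Not at h
    exact hne2 (Set.eq_singleton_iff_unique_mem.2 ⟨hm2, h⟩)
  have hopen2 : IsOpen (B \ {y}) := hopen.sdiff isClosed_singleton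
  obtain ⟨B', hB', hx', hsub⟩ := hB.exists_subset_of_mem_open
    (show x ∈ B \ {y} from ⟨hm2, fun h => hyx h.symm⟩) hopen2
  have hlt : B' < B := by
    refine lt_of_le_of_ne (fun z hz => (hsub hz).1) ?_
    rintro rfl
    exact (hsub hy).2 rfl
  exact hwf.not_lt_min hne ⟨hB', hx', fun z hz => hm3 ((hsub hz).1)⟩ hlt

/-- The sets of diameter less than `1 / (n + 1)`. -/
def Small {X : Type*} [MetricSpace X] (n : ℕ) (U : Set X) : Prop :=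
  ∀ x ∈ U, ∀ y ∈ U, dist x y < 1 / ((n : ℝ) + 1)

lemma step {X : Type*} [MetricSpace X] (hX : NoIsolated X)
    {𝓑 : Set (Set X)} (hB : IsTopologicalBasis 𝓑) (n : ℕ) (𝓦 : Set (Set X)) (hW : 𝓦.IsWF) :
    ∃ 𝓤 ⊆ 𝓑 \ 𝓦, 𝓤.IsWF ∧ ∀ x, ∃ U ∈ 𝓤, x ∈ U ∧ Small n U := by
  have hB' := isTopologicalBasis_diff hX hB hW
  obtain ⟨𝓤, h𝓤, hwf, hcov⟩ := exists_isWF_subfamily {B | B ∈ 𝓑 \ 𝓦 ∧ Small n B}
  refine ⟨𝓤, fun U hU => (h𝓤 hU).1, hwf, fun x => ?_⟩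
  have key : ∃ W ∈ {B | B ∈ 𝓑 \ 𝓦 ∧ Small n B}, x ∈ W := by
    have hpos : (0 : ℝ) < 1 / ((n : ℝ) + 1) / 2 := by positivity
    obtain ⟨B, hB1, hB2, hB3⟩ := hB'.exists_subset_of_mem_open
      (Metric.mem_ball_self (x := x) hpos) Metric.isOpen_ball
    refine ⟨B, ⟨hB1, ?_⟩, hB2⟩
    intro y hy z hz
    have h1 := hB3 hy
    have h2 := hB3 hz
    rw [Metric.mem_ball] at h1 h2
    calc dist y z ≤ dist y x + dist z x := dist_triangle_right _ _ _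
      _ < 1 / ((n : ℝ) + 1) / 2 + 1 / ((n : ℝ) + 1) / 2 := add_lt_add h1 h2
      _ = 1 / ((n : ℝ) + 1) := by ring
  obtain ⟨U, hU, hx⟩ := hcov x key
  exact ⟨U, hU, hx, (h𝓤 hU).2⟩

/-- A metric space without isolated points is base resolvable. -/
theorem baseResolvable_of_metricSpace (X : Type*) [MetricSpace X] (hX : NoIsolated X) :
    BaseResolvable X := by
  classical
  refine ⟨hX, fun 𝓑 hB => ?_⟩
  choose f hf1 hf2 hf3 using fun (n : ℕ) (𝓦 : {𝓦 : Set (Set X) // 𝓦.IsWF}) =>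
    step hX hB (n / 2) 𝓦.1 𝓦.2
  -- the families used before stage `n`
  let A : ℕ → {𝓦 : Set (Set X) // 𝓦.IsWF} := fun n =>
    Nat.rec ⟨∅, Set.isWF_empty⟩ (fun n 𝓦 => ⟨𝓦.1 ∪ f n 𝓦, 𝓦.2.union (hf2 n 𝓦)⟩) n
  let C : ℕ → Set (Set X) := fun n => f n (A n)
  have hA : ∀ n, (A (n + 1)).1 = (A n).1 ∪ C n := fun n => rfl
  have hmono : ∀ m n, m ≤ n → (A m).1 ⊆ (A n).1 := by
    intro m n hmn
    induction hmn with
    | refl => exact subset_rfl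
    | step _ ih => exact ih.trans (by rw [hA]; exact subset_union_left)
  have hCA : ∀ m n, m < n → C m ⊆ (A n).1 := fun m n hmn =>
    (subset_union_right.trans (hA m).symm.subset).trans (hmono (m + 1) n hmn)
  have hCB : ∀ n, C n ⊆ 𝓑 := fun n U hU => (hf1 n (A n) hU).1
  have hdisj : ∀ m n, m < n → ∀ U ∈ C m, U ∉ C n := fun m n hmn U hU hU' =>
    (hf1 n (A n) hU').2 (hCA m n hmn hU)
  have hcov : ∀ n, ∀ x, ∃ U ∈ C n, x ∈ U ∧ Small (n / 2) U := fun n => hf3 n (A n)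
  have hbasis : ∀ 𝓓 : Set (Set X), 𝓓 ⊆ 𝓑 → (∀ k : ℕ, ∃ n, n / 2 = k ∧ C n ⊆ 𝓓) →
      IsTopologicalBasis 𝓓 := by
    intro 𝓓 h1 h2
    refine isTopologicalBasis_of_isOpen_of_nhds (fun u hu => hB.isOpen (h1 hu)) ?_
    intro x U hxU hU
    obtain ⟨ε, hε, hball⟩ := Metric.isOpen_iff.1 hU x hxU
    obtain ⟨k, hk⟩ := exists_nat_one_div_lt hε
    obtain ⟨n, hn, hCn⟩ := h2 k
    obtain ⟨V, hV, hxV, hsm⟩ := hcov n x
    refine ⟨V, hCn hV, hxV, fun y hy => hball ?_⟩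
    rw [Metric.mem_ball]
    rw [hn] at hsm
    exact (hsm y hy x hxV).trans hk
  refine ⟨⋃ k, C (2 * k), 𝓑 \ ⋃ k, C (2 * k), ?_, disjoint_sdiff_right, ?_, ?_⟩
  · rw [Set.union_sdiff_cancel]
    exact Set.iUnion_subset fun k => hCB _
  · refine hbasis _ (Set.iUnion_subset fun k => hCB _) fun k => ⟨2 * k, by omega, ?_⟩
    exact Set.subset_iUnion (fun k => C (2 * k)) k
  · refine hbasis _ Set.sdiff_subset fun k => ⟨2 * k + 1, by omega, fun U hU => ⟨hCB _ hU, ?_⟩⟩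
    rw [Set.mem_iUnion]
    rintro ⟨j, hj⟩
    rcases lt_trichotomy (2 * j) (2 * k + 1) with h | h | h
    · exact hdisj _ _ h U hj hU
    · omega
    · exact hdisj _ _ h U hU hj

end Pool.Agent.Helper53.BaseRes
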