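import Mathlib
import Pool.Agent.Helper53.BaseResDefs
import Pool.Agent.Helper53.BaseResMetric
import Pool.Agent.Helper53.BaseResCantor
import Pool.Agent.Helper53.BaseResGame

/-!
# A compact space and a metrizable space whose product is not base resolvable
-/

namespace Pool.Agent.Helper53.BaseRes

open TopologicalSpace Set Cardinal

/-! ### The compact factor -/

/-- the Cantor cube of weight continuum -/
abbrev XX : Type := PP → Bool

lemma baseResolvable_XX : BaseResolvable XX := by
  refine baseResolvable_cantor ?_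
  rw [← Cardinal.power_def, Cardinal.mk_nat, Cardinal.aleph0_power_aleph0]
  exact Cardinal.aleph0_lt_continuum

/-! ### The metrizable factor -/

/-- the discrete topology on the set of all families of finite subsets of `ω^ω` -/
instance instTopMM : TopologicalSpace MM := ⊥

instance instDiscMM : DiscreteTopology MM := ⟨rfl⟩

/-- the space of all good runs -/
def YY : Type := {y : ℕ → MM // Good y}

instance : TopologicalSpace YY := inferInstanceAs (TopologicalSpace {y : ℕ → MM // Good y})

instance : MetrizableSpace YY :=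
  Topology.IsEmbedding.metrizableSpace
    (Topology.IsEmbedding.subtypeVal : Topology.IsEmbedding (Subtype.val : YY → (ℕ → MM)))

lemma good_update {y : ℕ → MM} (hy : Good y) (m : ℕ) (A : MM) : Good (Function.update y m A) := by
  intro F n
  obtain ⟨k, hk, H, hH, hF⟩ := hy F (max n (m + 1))
  refine ⟨k, (le_max_left _ _).trans hk, H, ?_, hF⟩
  rw [Function.update_of_ne]
  · exact hH
  · have := (le_max_right n (m + 1)).trans hk
    omega

/-- `y` with its `m`-th term changed -/
noncomputable def upd (y : YY) (m : ℕ) (A : MM) : YY := ⟨Function.update y.1 m A, good_update y.2 m A⟩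

lemma upd_self (y : YY) (m : ℕ) (A : MM) : (upd y m A).1 m = A := Function.update_self ..

lemma upd_of_ne (y : YY) {m k : ℕ} (h : k ≠ m) (A : MM) : (upd y m A).1 k = y.1 k :=
  Function.update_of_ne h ..

lemma continuous_coord (i : ℕ) : Continuous (fun y : YY => y.1 i) :=
  (continuous_apply i).comp continuous_subtype_val

lemma isOpen_coord (i : ℕ) (A : Set MM) : IsOpen {y : YY | y.1 i ∈ A} :=
  (isOpen_discrete A).preimage (continuous_coord i)

lemma exists_nat_subset {U : Set YY} (hU : IsOpen U) {y : YY} (hy : y ∈ U) :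
    ∃ n : ℕ, ∀ z : YY, (∀ i < n, z.1 i = y.1 i) → z ∈ U := by
  obtain ⟨V, hV, rfl⟩ := isOpen_induced_iff.1 hU
  rw [isOpen_pi_iff] at hV
  obtain ⟨F, u, hu, hsub⟩ := hV y.1 hy
  refine ⟨F.sup id + 1, fun z hz => hsub ?_⟩
  intro i hi
  rw [hz i (Nat.lt_succ_of_le (Finset.le_sup (f := id) hi))]
  exact (hu i hi).2

/-- a family of finite sets different from `A` but with the same answer at `H` -/
lemma exists_other (A : MM) (H : Finset PP) : ∃ A' : MM, A' ≠ A ∧ (H ∈ A → H ∈ A') := by
  classical
  obtain ⟨α, hα⟩ := Infinite.exists_notMem_finset H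
  by_cases h : insert α H ∈ A
  · refine ⟨A \ {insert α H}, ?_, fun hH => ⟨hH, ?_⟩⟩
    · intro he; rw [← he] at h; exact h.2 rfl
    · rintro h'
      apply hα
      rw [Set.mem_singleton_iff.1 h']
      exact Finset.mem_insert_self _ _
  · refine ⟨insert (insert α H) A, ?_, fun hH => Or.inr hH⟩
    intro he; exact h (he ▸ Set.mem_insert _ _)

lemma noIsolated_YY : NoIsolated YY := by
  intro y hy
  obtain ⟨n, hn⟩ := exists_nat_subset hy rfl
  obtain ⟨A', hA', -⟩ := exists_other (y.1 n) ∅
  have h := hn (upd y n A') (fun i hi => upd_of_ne y hi.ne A')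
  have h2 : (upd y n A').1 n = y.1 n := by rw [Set.mem_singleton_iff.1 h]
  rw [upd_self] at h2
  exact hA' h2

lemma baseResolvable_YY : BaseResolvable YY := by
  let _ := metrizableSpaceMetric YY
  exact baseResolvable_of_metricSpace YY noIsolated_YY

/-! ### The base of the product -/

/-- the boxes -/
def box (h : List MM) (H : Finset PP) (r : XX) : Set (XX × YY) :=
  {q | (∀ α ∈ H, q.1 α = r α) ∧ ini q.2.1 h.length = h ∧ H ∈ (q.2.1 h.length : MM)}

lemma ini_congr {y z : ℕ → MM} {n : ℕ} (h : ∀ i < n, z i = y i) : ini z n = ini y n := by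
  induction n with
  | zero => rfl
  | succ n ih => rw [ini, ini, h n (Nat.lt_succ_self n), ih fun i hi => h i (by omega)]

lemma eq_of_ini_eq {y z : ℕ → MM} {n : ℕ} (h : ini z n = ini y n) : ∀ i < n, z i = y i := by
  induction n with
  | zero => intro i hi; omega
  | succ n ih =>
    intro i hi
    rw [ini, ini, List.cons.injEq] at h
    rcases Nat.lt_succ_iff_lt_or_eq.1 hi with h' | rfl
    · exact ih h.2 i h'
    · exact h.1

lemma isOpen_ini (n : ℕ) (h : List MM) : IsOpen {y : YY | ini y.1 n = h} := by
  induction n generalizing h with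
  | zero => simp only [ini]; exact isOpen_const
  | succ n ih =>
    cases h with
    | nil => simp [ini]
    | cons a t =>
      have : {y : YY | ini y.1 (n + 1) = a :: t} =
          {y : YY | y.1 n ∈ ({a} : Set MM)} ∩ {y : YY | ini y.1 n = t} := by
        ext y
        simp [ini]
      rw [this]
      exact (isOpen_coord n _).inter (ih t)

lemma isOpen_box (h : List MM) (H : Finset PP) (r : XX) : IsOpen (box h H r) := by
  have h1 : IsOpen {x : XX | ∀ α ∈ H, x α = r α} := by
    have : {x : XX | ∀ α ∈ H, x α = r α} = ⋂ α ∈ H, (fun x : XX => x α) ⁻¹' {r α} := by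
      ext x; simp
    rw [this]
    exact isOpen_biInter_finset fun α _ => (isOpen_discrete _).preimage (continuous_apply α)
  have h2 : IsOpen {y : YY | ini y.1 h.length = h} := isOpen_ini _ _
  have h3 : IsOpen {y : YY | y.1 h.length ∈ ({A | H ∈ (A : MM)} : Set MM)} := isOpen_coord _ _
  exact (h1.preimage continuous_fst).inter
    ((h2.preimage continuous_snd).inter (h3.preimage continuous_snd))

/-- the base of the product -/
def BB : Set (Set (XX × YY)) := {B | ∃ h H r, B = box h H r}

lemma isTopologicalBasis_BB : IsTopologicalBasis BB := by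
  refine isTopologicalBasis_of_isOpen_of_nhds ?_ ?_
  · rintro _ ⟨h, H, r, rfl⟩; exact isOpen_box h H r
  · rintro ⟨x, y⟩ U hxy hU
    obtain ⟨U1, U2, hU1, hU2, hx, hy, hsub⟩ := isOpen_prod_iff.1 hU x y hxy
    obtain ⟨F, hF⟩ := exists_finset_subset hU1 hx
    obtain ⟨n, hn⟩ := exists_nat_subset hU2 hy
    obtain ⟨m, hm, H, hH, hFH⟩ := y.2 F n
    refine ⟨box (ini y.1 m) H x, ⟨_, _, _, rfl⟩, ⟨fun _ _ => rfl, ?_, ?_⟩, ?_⟩
    · rw [length_ini]
    · rw [length_ini]; exact hH
    · rintro ⟨x', y'⟩ ⟨h1, h2, h3⟩
      rw [length_ini] at h2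
      refine hsub ⟨hF x' fun α hα => h1 α (hFH hα), hn y' fun i hi => ?_⟩
      exact eq_of_ini_eq h2 i (by omega)

/-- the point at which the splitting fails -/
def x0 : XX := fun _ => false

lemma box_eq {h : List MM} {H : Finset PP} {r : XX} {y : YY} (hq : (x0, y) ∈ box h H r) :
    box h H r = box h H x0 := by
  ext ⟨x', y'⟩
  constructor
  · rintro ⟨h1, h2, h3⟩
    exact ⟨fun α hα => (h1 α hα).trans (hq.1 α hα).symm, h2, h3⟩
  · rintro ⟨h1, h2, h3⟩
    exact ⟨fun α hα => (h1 α hα).trans (hq.1 α hα), h2, h3⟩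

theorem not_resolvable_BB : ¬ ResolvableBase BB := by
  classical
  rintro ⟨𝓑₀, 𝓑₁, hun, hdisj, h0, h1⟩
  rcases game (fun h H => box h H x0 ∈ 𝓑₀) with ⟨y, hy, α, hα⟩ | ⟨y, hy, n, hn⟩
  · -- the family `𝓑₁` is not a base
    let Y : YY := ⟨y, hy⟩
    have hopen : IsOpen {q : XX × YY | q.1 α = x0 α} :=
      ((isOpen_discrete ({x0 α} : Set Bool)).preimage
        ((continuous_apply α).comp continuous_fst : Continuous fun q : XX × YY => q.1 α))
    obtain ⟨B, hB, hmem, hsub⟩ := h1.exists_subset_of_mem_open
      (show ((x0, Y) : XX × YY) ∈ {q : XX × YY | q.1 α = x0 α} from rfl) hopen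
    obtain ⟨h, H, r, rfl⟩ : B ∈ BB := hun ▸ Or.inr hB
    have hαH : α ∈ H := by
      by_contra hne
      have hm : ((Function.update x0 α true, Y) : XX × YY) ∈ box h H r := by
        refine ⟨fun β hβ => ?_, hmem.2⟩
        have hβα : β ≠ α := fun he => hne (he ▸ hβ)
        rw [← hmem.1 β hβ]
        exact Function.update_of_ne hβα _ _
      have h2 : Function.update x0 α true α = x0 α := hsub hm
      rw [Function.update_self] at h2
      simp [x0] at h2
    have h3 : ini y h.length = h := hmem.2.1
    have h4 : H ∈ y h.length := hmem.2.2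
    have h5 := hα h.length H h4 hαH
    rw [h3, ← box_eq hmem] at h5
    exact Set.disjoint_left.1 hdisj h5 hB
  · -- the family `𝓑₀` is not a base
    let Y : YY := ⟨y, hy⟩
    have hopen : IsOpen {q : XX × YY | ini q.2.1 n = ini y n} :=
      (isOpen_ini n _).preimage continuous_snd
    obtain ⟨B, hB, hmem, hsub⟩ := h0.exists_subset_of_mem_open
      (show ((x0, Y) : XX × YY) ∈ {q : XX × YY | ini q.2.1 n = ini y n} from rfl) hopen
    obtain ⟨h, H, r, rfl⟩ : B ∈ BB := hun ▸ Or.inl hB
    have h3 : ini y h.length = h := hmem.2.1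
    have h4 : H ∈ y h.length := hmem.2.2
    have hle : n ≤ h.length := by
      by_contra hlt
      push Not at hlt
      obtain ⟨A', hA', hHA⟩ := exists_other (y h.length) H
      have hm : ((x0, upd Y h.length A') : XX × YY) ∈ box h H r := by
        refine ⟨hmem.1, ?_, ?_⟩
        · change ini (upd Y h.length A').1 h.length = h
          rw [ini_congr (y := y) (fun i hi => upd_of_ne Y hi.ne A'), h3]
        · change H ∈ (upd Y h.length A').1 h.length
          rw [upd_self]
          exact hHA h4
      have h5 : ini (upd Y h.length A').1 n = ini y n := hsub hm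
      have h6 := eq_of_ini_eq h5 h.length hlt
      rw [upd_self] at h6
      exact hA' h6
    have h7 := hn h.length hle H h4
    rw [h3, ← box_eq hmem] at h7
    exact h7 hB

lemma noIsolated_prod {X Y : Type*} [TopologicalSpace X] [TopologicalSpace Y]
    (hX : NoIsolated X) : NoIsolated (X × Y) := by
  rintro ⟨x, y⟩ hq
  refine hX x ?_
  have : ({x} : Set X) = (fun x' => (x', y)) ⁻¹' {(x, y)} := by
    ext x'; simp
  rw [this]
  exact hq.preimage (by fun_prop)

end Pool.Agent.Helper53.BaseRes
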