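import Mathlib
import Pool.Agent.Helper53.BaseResDefs

/-!
# Base resolvability of sums and of open subspaces
-/

namespace Pool.Agent.Helper53.BaseRes

open TopologicalSpace Set

/-- If `e : A → B` is an open embedding and every base of `B` is resolvable, then every base of `A`
is resolvable. -/
lemma resolvable_of_isOpenEmbedding {A B : Type*} [TopologicalSpace A] [TopologicalSpace B]
    {e : A → B} (he : Topology.IsOpenEmbedding e)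
    (hB : ∀ 𝓑 : Set (Set B), IsTopologicalBasis 𝓑 → ResolvableBase 𝓑)
    (𝓐 : Set (Set A)) (hA : IsTopologicalBasis 𝓐) : ResolvableBase 𝓐 := by
  have hbase : IsTopologicalBasis
      ({W | ∃ V ∈ 𝓐, W = e '' V} ∪ {W : Set B | IsOpen W ∧ ¬ W ⊆ range e}) := by
    refine isTopologicalBasis_of_isOpen_of_nhds ?_ ?_
    · rintro W (⟨V, hV, rfl⟩ | hW)
      · exact he.isOpenMap _ (hA.isOpen hV)
      · exact hW.1
    · intro b U hb hU
      by_cases hbr : b ∈ range e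
      · obtain ⟨a, rfl⟩ := hbr
        obtain ⟨V, hV, haV, hVU⟩ := hA.exists_subset_of_mem_open
          (show a ∈ e ⁻¹' U from hb) (hU.preimage he.continuous)
        exact ⟨e '' V, Or.inl ⟨V, hV, rfl⟩, ⟨a, haV, rfl⟩, by
          rintro _ ⟨x, hx, rfl⟩; exact hVU hx⟩
      · exact ⟨U, Or.inr ⟨hU, fun h => hbr (h hb)⟩, hb, subset_rfl⟩
  obtain ⟨𝓒₀, 𝓒₁, hun, hdisj, h0, h1⟩ := hB _ hbase
  have key : ∀ 𝓒 : Set (Set B), IsTopologicalBasis 𝓒 →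
      𝓒 ⊆ {W | ∃ V ∈ 𝓐, W = e '' V} ∪ {W : Set B | IsOpen W ∧ ¬ W ⊆ range e} →
      IsTopologicalBasis {V | V ∈ 𝓐 ∧ e '' V ∈ 𝓒} := by
    intro 𝓒 hC hsub
    refine isTopologicalBasis_of_isOpen_of_nhds (fun V hV => hA.isOpen hV.1) ?_
    intro a U ha hU
    obtain ⟨C, hC1, hC2, hC3⟩ := hC.exists_subset_of_mem_open
      (show e a ∈ e '' U from ⟨a, ha, rfl⟩) (he.isOpenMap _ hU)
    rcases hsub hC1 with ⟨V, hV, rfl⟩ | hW
    · refine ⟨V, ⟨hV, hC1⟩, (he.injective.mem_set_image).1 hC2, ?_⟩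
      exact (Set.image_subset_image_iff he.injective).1 hC3
    · exact absurd (hC3.trans (Set.image_subset_range e U)) hW.2
  refine ⟨_, _, ?_, ?_, key 𝓒₀ h0 (hun ▸ subset_union_left), key 𝓒₁ h1 (hun ▸ subset_union_right)⟩
  · ext V
    constructor
    · intro hV
      have : e '' V ∈ 𝓒₀ ∪ 𝓒₁ := hun ▸ Or.inl ⟨V, hV, rfl⟩
      rcases this with h | h
      · exact Or.inl ⟨hV, h⟩
      · exact Or.inr ⟨hV, h⟩
    · rintro (h | h) <;> exact h.1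
  · rw [Set.disjoint_left]
    rintro V hV0 hV1
    exact Set.disjoint_left.1 hdisj hV0.2 hV1.2

lemma NoIsolated.sum {X Y : Type*} [TopologicalSpace X] [TopologicalSpace Y]
    (hX : NoIsolated X) (hY : NoIsolated Y) : NoIsolated (X ⊕ Y) := by
  rintro (x | y) h
  · refine hX x ?_
    have : ({x} : Set X) = Sum.inl ⁻¹' {(Sum.inl x : X ⊕ Y)} := by ext; simp
    rw [this]; exact h.preimage continuous_inl
  · refine hY y ?_
    have : ({y} : Set Y) = Sum.inr ⁻¹' {(Sum.inr y : X ⊕ Y)} := by ext; simp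
    rw [this]; exact h.preimage continuous_inr

/-- the preimages of the small members of a base form a base of an open subspace -/
lemma isTopologicalBasis_preimages {A B : Type*} [TopologicalSpace A] [TopologicalSpace B]
    {e : A → B} (he : Topology.IsOpenEmbedding e) {𝓑 : Set (Set B)} (hB : IsTopologicalBasis 𝓑) :
    IsTopologicalBasis {V | ∃ W ∈ 𝓑, W ⊆ range e ∧ V = e ⁻¹' W} := by
  refine isTopologicalBasis_of_isOpen_of_nhds ?_ ?_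
  · rintro _ ⟨W, hW, -, rfl⟩; exact (hB.isOpen hW).preimage he.continuous
  · intro a U ha hU
    obtain ⟨C, hC1, hC2, hC3⟩ := hB.exists_subset_of_mem_open
      (show e a ∈ e '' U from ⟨a, ha, rfl⟩) (he.isOpenMap _ hU)
    refine ⟨e ⁻¹' C, ⟨C, hC1, hC3.trans (Set.image_subset_range e U), rfl⟩, hC2, ?_⟩
    intro x hx
    exact (he.injective.mem_set_image).1 (hC3 hx)

/-- The topological sum of two base resolvable spaces is base resolvable. -/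
theorem BaseResolvable.sum {X Y : Type*} [TopologicalSpace X] [TopologicalSpace Y]
    (hX : BaseResolvable X) (hY : BaseResolvable Y) : BaseResolvable (X ⊕ Y) := by
  refine ⟨hX.1.sum hY.1, fun 𝓑 hB => ?_⟩
  obtain ⟨𝓧₀, 𝓧₁, hxun, hxdisj, hx0, hx1⟩ :=
    hX.2 _ (isTopologicalBasis_preimages Topology.IsOpenEmbedding.inl hB)
  obtain ⟨𝓨₀, 𝓨₁, hyun, hydisj, hy0, hy1⟩ :=
    hY.2 _ (isTopologicalBasis_preimages Topology.IsOpenEmbedding.inr hB)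
  have key : ∀ (𝓓 : Set (Set (X ⊕ Y))), 𝓓 ⊆ 𝓑 →
      (∀ (x : X) (U : Set X), x ∈ U → IsOpen U → ∃ W ∈ 𝓓, Sum.inl x ∈ W ∧ W ⊆ Sum.inl '' U) →
      (∀ (y : Y) (U : Set Y), y ∈ U → IsOpen U → ∃ W ∈ 𝓓, Sum.inr y ∈ W ∧ W ⊆ Sum.inr '' U) →
      IsTopologicalBasis 𝓓 := by
    intro 𝓓 h1 h2 h3
    refine isTopologicalBasis_of_isOpen_of_nhds (fun V hV => hB.isOpen (h1 hV)) ?_
    rintro (x | y) U hU hUo
    · obtain ⟨W, hW, hxW, hWU⟩ := h2 x (Sum.inl ⁻¹' U) hU (hUo.preimage continuous_inl)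
      exact ⟨W, hW, hxW, hWU.trans (Set.image_preimage_subset _ _)⟩
    · obtain ⟨W, hW, hxW, hWU⟩ := h3 y (Sum.inr ⁻¹' U) hU (hUo.preimage continuous_inr)
      exact ⟨W, hW, hxW, hWU.trans (Set.image_preimage_subset _ _)⟩
  have hxget : ∀ 𝓧 : Set (Set X), IsTopologicalBasis 𝓧 → 𝓧 ⊆ 𝓧₀ ∪ 𝓧₁ →
      ∀ (x : X) (U : Set X), x ∈ U → IsOpen U → ∃ W ∈ 𝓑, W ⊆ range (Sum.inl : X → X ⊕ Y) ∧
        Sum.inl ⁻¹' W ∈ 𝓧 ∧ Sum.inl x ∈ W ∧ W ⊆ Sum.inl '' U := by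
    intro 𝓧 h1 h2 x U hx hU
    obtain ⟨V, hV, hxV, hVU⟩ := h1.exists_subset_of_mem_open hx hU
    have hV' := h2 hV
    rw [← hxun] at hV'
    obtain ⟨W, hW, hWr, rfl⟩ := hV'
    refine ⟨W, hW, hWr, hV, hxV, ?_⟩
    rintro w hw
    obtain ⟨x', rfl⟩ := hWr hw
    exact ⟨x', hVU hw, rfl⟩
  have hyget : ∀ 𝓨 : Set (Set Y), IsTopologicalBasis 𝓨 → 𝓨 ⊆ 𝓨₀ ∪ 𝓨₁ →
      ∀ (y : Y) (U : Set Y), y ∈ U → IsOpen U → ∃ W ∈ 𝓑, W ⊆ range (Sum.inr : Y → X ⊕ Y) ∧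
        Sum.inr ⁻¹' W ∈ 𝓨 ∧ Sum.inr y ∈ W ∧ W ⊆ Sum.inr '' U := by
    intro 𝓨 h1 h2 y U hy hU
    obtain ⟨V, hV, hyV, hVU⟩ := h1.exists_subset_of_mem_open hy hU
    have hV' := h2 hV
    rw [← hyun] at hV'
    obtain ⟨W, hW, hWr, rfl⟩ := hV'
    refine ⟨W, hW, hWr, hV, hyV, ?_⟩
    rintro w hw
    obtain ⟨y', rfl⟩ := hWr hw
    exact ⟨y', hVU hw, rfl⟩
  let 𝓓 : Set (Set (X ⊕ Y)) := {W | W ∈ 𝓑 ∧
    ((W ⊆ range (Sum.inl : X → X ⊕ Y) ∧ Sum.inl ⁻¹' W ∈ 𝓧₀) ∨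
      (W ⊆ range (Sum.inr : Y → X ⊕ Y) ∧ Sum.inr ⁻¹' W ∈ 𝓨₀))}
  refine ⟨𝓓, 𝓑 \ 𝓓, ?_, disjoint_sdiff_right, ?_, ?_⟩
  · rw [Set.union_sdiff_cancel]; exact fun W hW => hW.1
  · refine key _ (fun W hW => hW.1) ?_ ?_
    · intro x U hx hU
      obtain ⟨W, hW, h1, h2, h3, h4⟩ := hxget 𝓧₀ hx0 subset_union_left x U hx hU
      exact ⟨W, ⟨hW, Or.inl ⟨h1, h2⟩⟩, h3, h4⟩
    · intro y U hy hU
      obtain ⟨W, hW, h1, h2, h3, h4⟩ := hyget 𝓨₀ hy0 subset_union_left y U hy hU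
      exact ⟨W, ⟨hW, Or.inr ⟨h1, h2⟩⟩, h3, h4⟩
  · refine key _ Set.sdiff_subset ?_ ?_
    · intro x U hx hU
      obtain ⟨W, hW, h1, h2, h3, h4⟩ := hxget 𝓧₁ hx1 subset_union_right x U hx hU
      refine ⟨W, ⟨hW, ?_⟩, h3, h4⟩
      rintro ⟨-, h | h⟩
      · exact Set.disjoint_left.1 hxdisj h.2 h2
      · obtain ⟨y, hy⟩ := h.1 h3
        exact absurd hy (by simp)
    · intro y U hy hU
      obtain ⟨W, hW, h1, h2, h3, h4⟩ := hyget 𝓨₁ hy1 subset_union_right y U hy hU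
      refine ⟨W, ⟨hW, ?_⟩, h3, h4⟩
      rintro ⟨-, h | h⟩
      · obtain ⟨x, hx⟩ := h.1 h3
        exact absurd hx (by simp)
      · exact Set.disjoint_left.1 hydisj h.2 h2

/-- If `X × Y` has a base which is not resolvable, so does the square of `X ⊕ Y`. -/
theorem exists_not_resolvable_square {X Y : Type*} [TopologicalSpace X] [TopologicalSpace Y]
    (h : ∃ 𝓑 : Set (Set (X × Y)), IsTopologicalBasis 𝓑 ∧ ¬ ResolvableBase 𝓑) :
    ∃ 𝓑 : Set (Set ((X ⊕ Y) × (X ⊕ Y))), IsTopologicalBasis 𝓑 ∧ ¬ ResolvableBase 𝓑 := by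
  by_contra hcon
  push Not at hcon
  obtain ⟨𝓑, h1, h2⟩ := h
  exact h2 (resolvable_of_isOpenEmbedding (e := Prod.map (Sum.inl : X → X ⊕ Y) (Sum.inr : Y → X ⊕ Y))
    (Topology.IsOpenEmbedding.inl.prodMap Topology.IsOpenEmbedding.inr) hcon 𝓑 h1)

end Pool.Agent.Helper53.BaseRes
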