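import Mathlib
import Pool.Agent.Helper53.CritDefs

/-!
# `5`-critical graphs with linear minimum degree

The graph `G N` has vertices `A (m, k) = inl (m, k)` and `B (l, k) = inr (l, k)`, for
`m, l ∈ Fin 8` and positions `k < 2 N + 1`.  The positions are split in two classes (`k ≤ N` and
`k > N`), and `B (l, k)` belongs to the set `Q_j`, `j = inp l (class of k)`.
For each `m`, the vertices `A (m, ·)` form an odd cycle, completely joined to `Q_m`; moreover
`A (l, k)` is joined to `B (l, k)`; and for five pairs `{u, v}` the sets `Q_u`, `Q_v` are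
completely joined.

In a proper `4`-colouring every `Q_m` is monochromatic, and if the (one or two) sets `Q_i`
feeding the cycle `A (l, ·)` have the same colour then `Q_l` has that colour too; this is
contradictory.  On the other hand every vertex lies in at least `N` edges whose deletion makes
`G N` properly `4`-colourable.  So every `5`-critical subgraph of `G N` has minimum degree at
least `N`.
-/

namespace Pool.Agent.Helper53.Crit

/-! ### Minimal non-colourable spanning subgraphs -/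

section Minimal

variable {V : Type*}

/-- Among the spanning subgraphs of `G` that are not `k`-colourable there is a minimal one. -/
theorem exists_minimal_not_colorable [Finite V] {G : SimpleGraph V} {k : ℕ}
    (hG : ¬ G.Colorable k) :
    ∃ H : SimpleGraph V, H ≤ G ∧ ¬ H.Colorable k ∧ ∀ H' < H, H'.Colorable k := by
  classical
  obtain ⟨H, hH⟩ := (Set.toFinite {H : SimpleGraph V | H ≤ G ∧ ¬ H.Colorable k}).exists_minimal
    ⟨G, le_rfl, hG⟩
  refine ⟨H, hH.prop.1, hH.prop.2, fun H' hlt => ?_⟩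
  by_contra hcol
  exact absurd (hH.le_of_le ⟨hlt.le.trans hH.prop.1, hcol⟩ hlt.le) (not_le_of_gt hlt)

/-- A minimal non-`k`-colourable graph without isolated vertices is `(k+1)`-critical. -/
theorem isCritical_of_minimal {H : SimpleGraph V} {k : ℕ}
    (hH : ¬ H.Colorable k) (hmin : ∀ H' < H, H'.Colorable k) (hiso : ∀ v, ∃ w, H.Adj v w)
    (hne : Nonempty V) : IsCritical (k + 1) H := by
  classical
  have hdel : ∀ x y, H.Adj x y → (H.deleteEdges {s(x, y)}).Colorable k := by
    intro x y hxy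
    refine hmin _ (lt_of_le_of_ne (SimpleGraph.deleteEdges_le _) ?_)
    intro h
    have : (H.deleteEdges {s(x, y)}).Adj x y := by rw [h]; exact hxy
    rw [SimpleGraph.deleteEdges_adj] at this
    exact this.2 rfl
  refine ⟨?_, ?_⟩
  · apply le_antisymm
    · obtain ⟨x⟩ := hne
      obtain ⟨y, hxy⟩ := hiso x
      obtain ⟨C⟩ := hdel x y hxy
      have hcol : H.Colorable (k + 1) := by
        refine ⟨SimpleGraph.Coloring.mk
          (fun v => if v = x then Fin.last k else (C v).castSucc) ?_⟩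
        intro v w hvw
        by_cases hv : v = x
        · have hw : w ≠ x := fun h => hvw.ne (hv.trans h.symm)
          simp only [hv, hw, if_true, if_false]
          exact (Fin.castSucc_lt_last _).ne'
        · by_cases hw : w = x
          · simp only [hv, hw, if_true, if_false]
            exact (Fin.castSucc_lt_last _).ne
          · simp only [hv, hw, if_false]
            intro h
            have h' := Fin.castSucc_injective _ h
            refine C.valid ?_ h'
            rw [SimpleGraph.deleteEdges_adj]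
            refine ⟨hvw, ?_⟩
            intro hmem
            rw [Set.mem_singleton_iff, Sym2.eq_iff] at hmem
            rcases hmem with ⟨h1, _⟩ | ⟨_, h2⟩
            · exact hv h1
            · exact hw h2
      exact hcol.chromaticNumber_le
    · by_contra hlt
      rw [not_le] at hlt
      have h1 : H.chromaticNumber ≤ (k : ℕ∞) := by
        have := ENat.lt_natCast_add_one_iff.1 (by exact_mod_cast hlt : H.chromaticNumber < (k : ℕ∞) + 1)
        exact this
      exact hH (SimpleGraph.chromaticNumber_le_iff_colorable.1 h1)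
  · intro K hK
    have hex : ∃ x y, H.Adj x y ∧ ¬ K.Adj x y := by
      by_contra hcon
      push Not at hcon
      apply hK
      rw [eq_top_iff]
      refine ⟨?_, ?_⟩
      · intro v _
        obtain ⟨w, hvw⟩ := hiso v
        exact K.edge_vert (hcon v w hvw)
      · intro v w hvw
        exact hcon v w hvw
    obtain ⟨x, y, hxy, hnxy⟩ := hex
    obtain ⟨C⟩ := hdel x y hxy
    have hcol : K.coe.Colorable k := by
      refine ⟨SimpleGraph.Coloring.mk (fun v => C v.1) ?_⟩
      intro v w hvw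
      have h1 : K.Adj v.1 w.1 := hvw
      apply C.valid
      rw [SimpleGraph.deleteEdges_adj]
      refine ⟨K.adj_sub h1, ?_⟩
      intro hmem
      rw [Set.mem_singleton_iff, Sym2.eq_iff] at hmem
      rcases hmem with ⟨h2, h3⟩ | ⟨h2, h3⟩
      · rw [h2, h3] at h1; exact hnxy h1
      · rw [h2, h3] at h1; exact hnxy h1.symm
    refine lt_of_le_of_lt hcol.chromaticNumber_le ?_
    exact_mod_cast Nat.lt_succ_self k

end Minimal

/-! ### The finite system -/

/-- The inputs of the cycle `A (l, ·)`: position classes `false`, `true`. -/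
def inp : Fin 8 → Bool → Fin 8
  | 0, false => 3
  | 0, true => 5
  | 1, false => 2
  | 1, true => 6
  | 2, _ => 4
  | 3, _ => 1
  | 4, false => 1
  | 4, true => 6
  | 5, false => 0
  | 5, true => 3
  | 6, _ => 7
  | 7, false => 0
  | 7, true => 5

/-- The pairs of sets `Q_u`, `Q_v` that are completely joined. -/
def dis : Fin 8 → Fin 8 → Bool
  | 0, 2 => true
  | 2, 0 => true
  | 0, 6 => true
  | 6, 0 => true
  | 2, 3 => true
  | 3, 2 => true
  | 4, 5 => true
  | 5, 4 => true
  | 5, 6 => true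
  | 6, 5 => true
  | _, _ => false

theorem dis_symm : ∀ u v, dis u v = dis v u := by decide

theorem dis_irrefl : ∀ u, dis u u = false := by decide

theorem inp_ne : ∀ l σ, inp l σ ≠ l := by decide

/-- For each `l`, an assignment violating only the clause `l`. -/
def tabS : Fin 8 → Fin 8 → Fin 4
  | 0 => ![0, 1, 2, 1, 2, 1, 3, 3]
  | 1 => ![0, 1, 2, 1, 2, 3, 2, 2]
  | 2 => ![0, 1, 2, 1, 1, 2, 1, 1]
  | 3 => ![0, 1, 1, 2, 1, 3, 1, 1]
  | 4 => ![0, 1, 2, 1, 2, 3, 1, 1]
  | 5 => ![0, 0, 1, 0, 1, 2, 3, 3]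
  | 6 => ![0, 0, 1, 0, 1, 0, 2, 0]
  | 7 => ![0, 0, 1, 0, 1, 0, 2, 2]

/-- The exceptional colour. -/
def tabG : Fin 8 → Bool → Fin 4
  | 0, _ => 0
  | 1, false => 3
  | 1, true => 1
  | 2, _ => 0
  | 3, _ => 0
  | 4, _ => 2
  | 5, _ => 2
  | 6, _ => 1
  | 7, _ => 3

/-- The triples (clause, class of the `Q`-element, class of the `A`-vertex) that we treat. -/
def good : Fin 8 → Bool → Bool → Bool
  | 0, true, false => false
  | 4, false, false => false
  | 5, false, true => false
  | _, _, _ => true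

theorem tab_dis : ∀ l u v, dis u v = true → tabS l u ≠ tabS l v := by decide

theorem tab_clause : ∀ l m, m ≠ l →
    ¬ (tabS l (inp m false) = tabS l (inp m true) ∧ tabS l (inp m false) ≠ tabS l m) := by decide

theorem tab_viol : ∀ l σ, tabS l (inp l σ) ≠ tabS l l ∧
    tabS l (inp l σ) = tabS l (inp l (!σ)) := by decide

theorem tabG_ne : ∀ l σ, tabG l σ ≠ tabS l (inp l σ) := by decide

theorem tabG_dis : ∀ l σ v, dis (inp l σ) v = true → tabG l σ ≠ tabS l v := by decide

theorem tab_good : ∀ l σ τ, good l σ τ = true → tabS l (inp (inp l σ) τ) ≠ tabG l σ := by decide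

theorem tab_inputs : ∀ l σ τ, tabS l (inp (inp l σ) τ) = tabS l (inp l σ) ∨
    tabS l (inp (inp l σ) τ) = tabG l σ := by decide

theorem good_left : ∀ l σ, ∃ τ, good l σ τ = true := by decide

theorem good_right : ∀ j τ, ∃ l σ, inp l σ = j ∧ good l σ τ = true := by decide

/-! ### Colouring odd cycles -/

/-- `k'` follows `k` on the cycle of length `2 N + 1`. -/
def Next (N k k' : ℕ) : Prop := k' = k + 1 ∨ (k = 2 * N ∧ k' = 0)

/-- One special position `p`, the others alternate. -/
def alt (N p k : ℕ) (c₀ c₁ c₂ : Fin 4) : Fin 4 :=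
  if k = p then c₀ else
    if (if p < k then k - p else k + (2 * N + 1) - p) % 2 = 1 then c₁ else c₂

theorem alt_next {N p k k' : ℕ} {c₀ c₁ c₂ : Fin 4} (hN : 1 ≤ N) (hp : p < 2 * N + 1)
    (h : Next N k k') (h01 : c₀ ≠ c₁) (h02 : c₀ ≠ c₂)
    (h12 : c₁ ≠ c₂) : alt N p k c₀ c₁ c₂ ≠ alt N p k' c₀ c₁ c₂ := by
  unfold alt
  unfold Next at h
  split_ifs <;> omega

/-- Two blocks, each alternating. -/
def two (N k : ℕ) (a₀ b₀ a₁ b₁ : Fin 4) : Fin 4 :=
  if k ≤ N then (if k % 2 = 0 then a₀ else b₀) else (if (k - (N + 1)) % 2 = 0 then a₁ else b₁)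

theorem two_next {N k k' : ℕ} {a₀ b₀ a₁ b₁ : Fin 4} (hN : 1 ≤ N) (h : Next N k k') (h1 : a₀ ≠ b₀) (h2 : a₁ ≠ b₁) (h3 : a₁ ≠ a₀)
    (h4 : a₁ ≠ b₀) (h5 : a₀ ≠ b₁) : two N k a₀ b₀ a₁ b₁ ≠ two N k' a₀ b₀ a₁ b₁ := by
  unfold two
  unfold Next at h
  split_ifs <;> omega

/-- An odd cycle cannot be properly coloured with two colours. -/
theorem odd_cycle {N : ℕ} {f : ℕ → Fin 4} {c c' : Fin 4} (hcc : c ≠ c')
    (hf : ∀ k, k ≤ 2 * N → f k ≠ c ∧ f k ≠ c') (hn : ∀ k, k < 2 * N → f k ≠ f (k + 1))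
    (hl : f (2 * N) ≠ f 0) : False := by
  have key' : ∀ c c' a b d : Fin 4, c ≠ c' → a ≠ c → a ≠ c' → b ≠ c → b ≠ c' → d ≠ c → d ≠ c' →
      a ≠ b → b ≠ d → d = a := by decide
  have key := fun a b d => key' c c' a b d hcc
  have h2 : ∀ i, i ≤ N → f (2 * i) = f 0 := by
    intro i
    induction i with
    | zero => intro _; rfl
    | succ i ih =>
      intro hi
      have e := key (f (2 * i)) (f (2 * i + 1)) (f (2 * i + 1 + 1))
        (hf _ (by omega)).1 (hf _ (by omega)).2 (hf _ (by omega)).1 (hf _ (by omega)).2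
        (hf _ (by omega)).1 (hf _ (by omega)).2 (hn _ (by omega)) (hn _ (by omega))
      rw [show 2 * (i + 1) = 2 * i + 1 + 1 by ring, e]
      exact ih (by omega)
  exact hl (h2 N le_rfl)

theorem alt_self (N p : ℕ) (c₀ c₁ c₂ : Fin 4) : alt N p p c₀ c₁ c₂ = c₀ := by
  unfold alt
  rw [if_pos rfl]

theorem alt_other {N p k : ℕ} {c₀ c₁ c₂ : Fin 4} (h : k ≠ p) :
    alt N p k c₀ c₁ c₂ = c₁ ∨ alt N p k c₀ c₁ c₂ = c₂ := by
  unfold alt
  rw [if_neg h]
  split_ifs <;> simp

theorem two_le {N k : ℕ} {a₀ b₀ a₁ b₁ : Fin 4} (h : k ≤ N) :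
    two N k a₀ b₀ a₁ b₁ = a₀ ∨ two N k a₀ b₀ a₁ b₁ = b₀ := by
  unfold two
  rw [if_pos h]
  split_ifs <;> simp

theorem two_gt {N k : ℕ} {a₀ b₀ a₁ b₁ : Fin 4} (h : ¬ k ≤ N) :
    two N k a₀ b₀ a₁ b₁ = a₁ ∨ two N k a₀ b₀ a₁ b₁ = b₁ := by
  unfold two
  rw [if_neg h]
  split_ifs <;> simp

set_option synthInstance.maxSize 1000 in
theorem two_exists : ∀ u x₀ x₁ : Fin 4, ¬ (x₀ = x₁ ∧ x₀ ≠ u) → ∃ a₀ b₀ a₁ b₁ : Fin 4,
    (a₀ ≠ u ∧ a₀ ≠ x₀ ∧ b₀ ≠ u ∧ b₀ ≠ x₀) ∧ (a₁ ≠ u ∧ a₁ ≠ x₁ ∧ b₁ ≠ u ∧ b₁ ≠ x₁) ∧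
    a₀ ≠ b₀ ∧ a₁ ≠ b₁ ∧ a₁ ≠ a₀ ∧ a₁ ≠ b₀ ∧ a₀ ≠ b₁ := by decide

theorem pair_exists : ∀ x y : Fin 4, x ≠ y → ∃ c d : Fin 4,
    c ≠ x ∧ c ≠ y ∧ d ≠ x ∧ d ≠ y ∧ c ≠ d := by decide

/-! ### The graph -/

/-- The vertices: `inl (m, k)` is `A (m, k)` and `inr (l, k)` is `B (l, k)`. -/
abbrev Vtx (N : ℕ) : Type := (Fin 8 × Fin (2 * N + 1)) ⊕ (Fin 8 × Fin (2 * N + 1))

/-- The class of a position. -/
def cls (N : ℕ) (k : Fin (2 * N + 1)) : Bool := decide (N < k.val)

/-- The adjacency relation. -/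
def rel (N : ℕ) : Vtx N → Vtx N → Prop
  | Sum.inl x, Sum.inl y => x.1 = y.1 ∧ x.2 ≠ y.2 ∧ (Next N x.2 y.2 ∨ Next N y.2 x.2)
  | Sum.inl x, Sum.inr y => inp y.1 (cls N y.2) = x.1 ∨ (x.1 = y.1 ∧ x.2 = y.2)
  | Sum.inr y, Sum.inl x => inp y.1 (cls N y.2) = x.1 ∨ (x.1 = y.1 ∧ x.2 = y.2)
  | Sum.inr x, Sum.inr y => dis (inp x.1 (cls N x.2)) (inp y.1 (cls N y.2)) = true

/-- The graph `G N`. -/
def G (N : ℕ) : SimpleGraph (Vtx N) where
  Adj := rel N
  symm := ⟨by
    rintro (x | x) (y | y) h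
    · exact ⟨h.1.symm, h.2.1.symm, h.2.2.symm⟩
    · exact h
    · exact h
    · change dis _ _ = true at h
      change dis _ _ = true
      rw [dis_symm]
      exact h⟩
  loopless := ⟨by
    rintro (x | x) h
    · exact h.2.1 rfl
    · change dis _ _ = true at h
      rw [dis_irrefl] at h
      exact Bool.noConfusion h⟩

/-- A position in each class. -/
def pos (N : ℕ) (σ : Bool) (i : Fin N) : Fin (2 * N + 1) :=
  if σ then ⟨N + 1 + i.val, by omega⟩ else ⟨i.val, by omega⟩

theorem cls_pos (N : ℕ) (σ : Bool) (i : Fin N) : cls N (pos N σ i) = σ := by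
  unfold cls pos
  cases σ
  · simp only [Bool.false_eq_true, if_false, decide_eq_false_iff_not]
    omega
  · simp only [if_true, decide_eq_true_iff]
    omega

theorem pos_injective (N : ℕ) (σ : Bool) : Function.Injective (pos N σ) := by
  intro i i' h
  unfold pos at h
  cases σ
  · simp at h; omega
  · simp at h; omega

/-! ### `G N` is not `4`-colourable -/

set_option synthInstance.maxSize 1000 in
theorem no_assignment (s : Fin 8 → Fin 4) (hd : ∀ u v, dis u v = true → s u ≠ s v)
    (hc : ∀ l, s (inp l false) = s (inp l true) → s (inp l false) = s l) : False := by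
  have e24 : s 4 = s 2 := hc 2 rfl
  have e13 : s 1 = s 3 := hc 3 rfl
  have e67 : s 7 = s 6 := hc 6 rfl
  have d02 : s 0 ≠ s 2 := hd 0 2 rfl
  have d06 : s 0 ≠ s 6 := hd 0 6 rfl
  have d23 : s 2 ≠ s 3 := hd 2 3 rfl
  have d45 : s 4 ≠ s 5 := hd 4 5 rfl
  have d56 : s 5 ≠ s 6 := hd 5 6 rfl
  have c1 : s 2 = s 6 → s 2 = s 1 := hc 1
  have c4 : s 1 = s 6 → s 1 = s 4 := hc 4
  have c0 : s 3 = s 5 → s 3 = s 0 := hc 0
  have c5 : s 0 = s 3 → s 0 = s 5 := hc 5
  have c7 : s 0 = s 5 → s 0 = s 7 := hc 7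
  have n26 : s 2 ≠ s 6 := fun h => d23 ((c1 h).trans e13)
  have n36 : s 3 ≠ s 6 := fun h => d23 ((e24.symm.trans (c4 (e13.trans h)).symm).trans e13)
  have n05 : s 0 ≠ s 5 := fun h => d06 ((c7 h).trans e67)
  have n03 : s 0 ≠ s 3 := fun h => n05 (c5 h)
  have n35 : s 3 ≠ s 5 := fun h => n03 (c0 h).symm
  have d25 : s 2 ≠ s 5 := fun h => d45 (e24.trans h)
  have key : ∀ a b c d e : Fin 4, a ≠ b → a ≠ c → a ≠ d → a ≠ e → b ≠ c → b ≠ d → b ≠ e →
      c ≠ d → c ≠ e → d ≠ e → False := by decide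
  exact key (s 0) (s 2) (s 3) (s 5) (s 6) d02 n03 n05 d06 d23 d25 n26 n35 n36 d56

theorem exists_input : ∀ m : Fin 8, ∃ l σ, inp l σ = m := by decide

theorem not_colorable {N : ℕ} (hN : 1 ≤ N) : ¬ (G N).Colorable 4 := by
  rintro ⟨C⟩
  -- no cycle `A (m, ·)` avoids two colours
  have hodd : ∀ (m : Fin 8) (c c' : Fin 4), c ≠ c' →
      (∀ k, C (Sum.inl (m, k)) ≠ c ∧ C (Sum.inl (m, k)) ≠ c') → False := by
    intro m c c' hcc h
    refine odd_cycle (N := N) (f := fun k => if hk : k < 2 * N + 1 then C (Sum.inl (m, ⟨k, hk⟩))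
      else 0) hcc ?_ ?_ ?_
    · intro k hk
      rw [dif_pos (by omega)]
      exact h _
    · intro k hk
      rw [dif_pos (by omega), dif_pos (by omega)]
      apply C.valid
      refine ⟨rfl, ?_, Or.inl (Or.inl rfl)⟩
      intro he
      have := congrArg Fin.val he
      simp at this
    · rw [dif_pos (by omega), dif_pos (by omega)]
      apply C.valid
      refine ⟨rfl, ?_, Or.inl (Or.inr ⟨rfl, rfl⟩)⟩
      intro he
      have := congrArg Fin.val he
      simp at this
      omega
  choose rl rσ hr using exists_input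
  let z : Fin N := ⟨0, hN⟩
  let s : Fin 8 → Fin 4 := fun m => C (Sum.inr (rl m, pos N (rσ m) z))
  have hrep : ∀ m, inp (rl m) (cls N (pos N (rσ m) z)) = m := fun m => by
    rw [cls_pos]; exact hr m
  have hav : ∀ m k, C (Sum.inl (m, k)) ≠ s m := by
    intro m k
    apply C.valid
    exact Or.inl (hrep m)
  have hmono : ∀ l k, C (Sum.inr (l, k)) = s (inp l (cls N k)) := by
    intro l k
    by_contra hne
    refine hodd (inp l (cls N k)) _ _ hne fun k' => ⟨?_, hav _ k'⟩
    apply C.valid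
    exact Or.inl rfl
  refine no_assignment s ?_ ?_
  · intro u v huv
    apply C.valid
    change dis _ _ = true
    rw [hrep u, hrep v]
    exact huv
  · intro l hl
    by_contra hne
    refine hodd l _ _ hne fun k => ⟨?_, hav l k⟩
    have h1 : C (Sum.inl (l, k)) ≠ C (Sum.inr (l, k)) := C.valid (Or.inr ⟨rfl, rfl⟩)
    rw [hmono] at h1
    cases hσ : cls N k
    · rw [hσ] at h1; exact h1
    · rw [hσ, ← hl] at h1; exact h1

/-! ### Critical edges -/

theorem critical_edge {N : ℕ} (hN : 1 ≤ N) (l : Fin 8) (k₀ k₁ : Fin (2 * N + 1))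
    (hg : good l (cls N k₀) (cls N k₁) = true) :
    ∃ φ : Vtx N → Fin 4, ∀ x y, (G N).Adj x y →
      s(x, y) ≠ s(Sum.inl (inp l (cls N k₀), k₁), Sum.inr (l, k₀)) → φ x ≠ φ y := by
  classical
  set j := inp l (cls N k₀) with hj
  set S := tabS l with hS
  set γ := tabG l (cls N k₀) with hγ
  have hjl : j ≠ l := inp_ne l _
  have hSjl : S j ≠ S l := (tab_viol l (cls N k₀)).1
  have hSin : ∀ σ, S (inp l σ) = S j := by
    intro σ
    by_cases h : σ = cls N k₀
    · rw [h]
    · have h' : σ = !(cls N k₀) := by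
        cases σ <;> cases hc : cls N k₀ <;> simp_all
      rw [h']
      exact (tab_viol l (cls N k₀)).2.symm
  have hγS : γ ≠ S j := tabG_ne l _
  have hγd : ∀ v, dis j v = true → γ ≠ S v := tabG_dis l _
  have hgood : S (inp j (cls N k₁)) ≠ γ := tab_good l _ _ hg
  have hinp : ∀ τ, S (inp j τ) = S j ∨ S (inp j τ) = γ := tab_inputs l _
  have htwo : ∀ m, m ≠ l → ∃ a₀ b₀ a₁ b₁ : Fin 4,
      (a₀ ≠ S m ∧ a₀ ≠ S (inp m false) ∧ b₀ ≠ S m ∧ b₀ ≠ S (inp m false)) ∧
      (a₁ ≠ S m ∧ a₁ ≠ S (inp m true) ∧ b₁ ≠ S m ∧ b₁ ≠ S (inp m true)) ∧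
      a₀ ≠ b₀ ∧ a₁ ≠ b₁ ∧ a₁ ≠ a₀ ∧ a₁ ≠ b₀ ∧ a₀ ≠ b₁ :=
    fun m hm => two_exists _ _ _ (tab_clause l m hm)
  choose! a₀ b₀ a₁ b₁ hab using htwo
  obtain ⟨μ, ν, hμ1, hμ2, hν1, hν2, hμν⟩ := pair_exists (S j) (S l) hSjl
  obtain ⟨α, β, hα1, hα2, hβ1, hβ2, hαβ⟩ := pair_exists (S j) γ hγS.symm
  let φA : Fin 8 → Fin (2 * N + 1) → Fin 4 := fun m k =>
    if m = l then alt N k₀ k (S j) μ ν else if m = j then alt N k₁ k γ α β else
      two N k (a₀ m) (b₀ m) (a₁ m) (b₁ m)
  let φB : Fin 8 → Fin (2 * N + 1) → Fin 4 := fun l' k =>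
    if l' = l ∧ k = k₀ then γ else S (inp l' (cls N k))
  -- cycle edges
  have hAA : ∀ m (k k' : Fin (2 * N + 1)), Next N k k' → φA m k ≠ φA m k' := by
    intro m k k' h
    by_cases hml : m = l
    · simp only [φA, hml, if_true]
      exact alt_next hN k₀.2 h hμ1.symm hν1.symm hμν
    · by_cases hmj : m = j
      · simp only [φA, hmj, hjl, if_true, if_false]
        exact alt_next hN k₁.2 h hα2.symm hβ2.symm hαβ
      · simp only [φA, hml, hmj, if_false]
        obtain ⟨-, -, h1, h2, h3, h4, h5⟩ := hab m hml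
        exact two_next hN h h1 h2 h3 h4 h5
  -- join edges
  have hAB : ∀ m k l' k', inp l' (cls N k') = m → ¬ (m = j ∧ k = k₁ ∧ l' = l ∧ k' = k₀) →
      φA m k ≠ φB l' k' := by
    intro m k l' k' h hne
    by_cases hml : m = l
    · have hB : φB l' k' = S l := by
        have : ¬ (l' = l ∧ k' = k₀) := by
          rintro ⟨rfl, rfl⟩
          exact hjl (hml ▸ h)
        simp only [φB, this, if_false, h, hml]
      rw [hB]
      simp only [φA, hml, if_true]
      by_cases hk : k = k₀
      · rw [hk, alt_self]; exact hSjl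
      · rcases alt_other (N := N) (c₀ := S j) (c₁ := μ) (c₂ := ν)
          (fun h => hk (Fin.ext h) : (k : ℕ) ≠ k₀) with h' | h'
        · rw [h']; exact hμ2
        · rw [h']; exact hν2
    · by_cases hmj : m = j
      · simp only [φA, hmj, hjl, if_true, if_false]
        by_cases hlk : l' = l ∧ k' = k₀
        · simp only [φB, hlk, and_self, if_true]
          have hk : k ≠ k₁ := fun hk => hne ⟨hmj, hk, hlk.1, hlk.2⟩
          rcases alt_other (N := N) (c₀ := γ) (c₁ := α) (c₂ := β)
            (fun h => hk (Fin.ext h) : (k : ℕ) ≠ k₁) with h' | h'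
          · rw [h']; exact hα2
          · rw [h']; exact hβ2
        · simp only [φB, hlk, if_false, h, hmj]
          by_cases hk : k = k₁
          · rw [hk, alt_self]; exact hγS
          · rcases alt_other (N := N) (c₀ := γ) (c₁ := α) (c₂ := β)
              (fun h => hk (Fin.ext h) : (k : ℕ) ≠ k₁) with h' | h'
            · rw [h']; exact hα1
            · rw [h']; exact hβ1
      · have hlk : ¬ (l' = l ∧ k' = k₀) := by
          rintro ⟨rfl, rfl⟩
          exact hmj h.symm
        simp only [φA, φB, hml, hmj, hlk, if_false, h]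
        obtain ⟨h0, h1, -⟩ := hab m hml
        by_cases hk : (k : ℕ) ≤ N
        · rcases two_le (a₀ := a₀ m) (b₀ := b₀ m) (a₁ := a₁ m) (b₁ := b₁ m) hk with h' | h'
          · rw [h']; exact h0.1
          · rw [h']; exact h0.2.2.1
        · rcases two_gt (a₀ := a₀ m) (b₀ := b₀ m) (a₁ := a₁ m) (b₁ := b₁ m) hk with h' | h'
          · rw [h']; exact h1.1
          · rw [h']; exact h1.2.2.1
  -- matching edges
  have hM : ∀ m k, φA m k ≠ φB m k := by
    intro m k
    by_cases hml : m = l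
    · simp only [φA, hml, if_true]
      by_cases hk : k = k₀
      · simp only [φB, hk, and_self, if_true]
        rw [alt_self]; exact hγS.symm
      · have hB : φB l k = S j := by
          simp only [φB, hk, and_false, if_false, hSin]
        rw [hB]
        rcases alt_other (N := N) (c₀ := S j) (c₁ := μ) (c₂ := ν)
          (fun h => hk (Fin.ext h) : (k : ℕ) ≠ k₀) with h' | h'
        · rw [h']; exact hμ1
        · rw [h']; exact hν1
    · by_cases hmj : m = j
      · simp only [φA, φB, hmj, hjl, false_and, if_true, if_false]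
        by_cases hk : k = k₁
        · rw [hk, alt_self]; exact hgood.symm
        · rcases alt_other (N := N) (c₀ := γ) (c₁ := α) (c₂ := β)
            (fun h => hk (Fin.ext h) : (k : ℕ) ≠ k₁) with h' | h' <;>
          rcases hinp (cls N k) with h2 | h2 <;> rw [h', h2] <;> assumption
      · simp only [φA, φB, hml, hmj, false_and, if_false]
        obtain ⟨h0, h1, -⟩ := hab m hml
        by_cases hk : (k : ℕ) ≤ N
        · have hc : cls N k = false := by
            unfold cls
            rw [decide_eq_false_iff_not]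
            omega
          rw [hc]
          rcases two_le (a₀ := a₀ m) (b₀ := b₀ m) (a₁ := a₁ m) (b₁ := b₁ m) hk with h' | h'
          · rw [h']; exact h0.2.1
          · rw [h']; exact h0.2.2.2
        · have hc : cls N k = true := by
            unfold cls
            rw [decide_eq_true_iff]
            omega
          rw [hc]
          rcases two_gt (a₀ := a₀ m) (b₀ := b₀ m) (a₁ := a₁ m) (b₁ := b₁ m) hk with h' | h'
          · rw [h']; exact h1.2.1
          · rw [h']; exact h1.2.2.2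
  -- edges between the sets `Q_u`
  have hBB : ∀ l' k l'' k', dis (inp l' (cls N k)) (inp l'' (cls N k')) = true →
      φB l' k ≠ φB l'' k' := by
    intro l' k l'' k' h
    by_cases h1 : l' = l ∧ k = k₀
    · by_cases h2 : l'' = l ∧ k' = k₀
      · rw [h1.1, h1.2, h2.1, h2.2, dis_irrefl] at h
        exact absurd h Bool.false_ne_true
      · simp only [φB, h1, h2, and_self, if_true, if_false]
        rw [h1.1, h1.2] at h
        exact hγd _ h
    · by_cases h2 : l'' = l ∧ k' = k₀
      · simp only [φB, h1, h2, and_self, if_true, if_false]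
        rw [h2.1, h2.2, dis_symm] at h
        exact (hγd _ h).symm
      · simp only [φB, h1, h2, if_false]
        exact tab_dis l _ _ h
  refine ⟨fun x => Sum.elim (fun a => φA a.1 a.2) (fun b => φB b.1 b.2) x, ?_⟩
  rintro (⟨m, k⟩ | ⟨m, k⟩) (⟨m', k'⟩ | ⟨m', k'⟩) hadj hne
  · obtain ⟨h1, -, h2 | h2⟩ := hadj
    · change m = m' at h1
      subst h1
      exact hAA m k k' h2
    · change m = m' at h1
      subst h1
      exact (hAA m k' k h2).symm
  · rcases hadj with h1 | ⟨h1, h2⟩
    · refine hAB m k m' k' h1 ?_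
      rintro ⟨rfl, rfl, rfl, rfl⟩
      exact hne rfl
    · change m = m' at h1
      change k = k' at h2
      subst h1 h2
      exact hM m k
  · rcases hadj with h1 | ⟨h1, h2⟩
    · refine (hAB m' k' m k h1 ?_).symm
      rintro ⟨rfl, rfl, rfl, rfl⟩
      exact hne Sym2.eq_swap
    · change m' = m at h1
      change k' = k at h2
      subst h1 h2
      exact (hM m' k').symm
  · exact hBB m k m' k' hadj

/-- A non-`4`-colourable spanning subgraph of `G N` contains all the critical edges. -/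
theorem adj_of_good {N : ℕ} (hN : 1 ≤ N) {H : SimpleGraph (Vtx N)} (hH : H ≤ G N)
    (hcol : ¬ H.Colorable 4) (l : Fin 8) (k₀ k₁ : Fin (2 * N + 1))
    (hg : good l (cls N k₀) (cls N k₁) = true) :
    H.Adj (Sum.inl (inp l (cls N k₀), k₁)) (Sum.inr (l, k₀)) := by
  by_contra hne
  apply hcol
  obtain ⟨φ, hφ⟩ := critical_edge hN l k₀ k₁ hg
  refine ⟨SimpleGraph.Coloring.mk φ ?_⟩
  intro x y hxy
  refine hφ x y (hH hxy) ?_
  intro he
  rw [Sym2.eq_iff] at he
  rcases he with ⟨rfl, rfl⟩ | ⟨rfl, rfl⟩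
  · exact hne hxy
  · exact hne hxy.symm

/-- Every vertex has at least `N` neighbours in such a subgraph. -/
theorem exists_neighbors {N : ℕ} (hN : 1 ≤ N) {H : SimpleGraph (Vtx N)} (hH : H ≤ G N)
    (hcol : ¬ H.Colorable 4) (v : Vtx N) :
    ∃ f : Fin N → Vtx N, Function.Injective f ∧ ∀ i, H.Adj v (f i) := by
  rcases v with ⟨m, k₁⟩ | ⟨l, k₀⟩
  · obtain ⟨l, σ, hlσ, hg⟩ := good_right m (cls N k₁)
    refine ⟨fun i => Sum.inr (l, pos N σ i), ?_, ?_⟩
    · intro i i' h
      have := (Prod.ext_iff.1 (Sum.inr_injective h)).2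
      exact pos_injective N σ this
    · intro i
      have h := adj_of_good hN hH hcol l (pos N σ i) k₁ (by rw [cls_pos]; exact hg)
      rw [cls_pos, hlσ] at h
      exact h
  · obtain ⟨τ, hg⟩ := good_left l (cls N k₀)
    refine ⟨fun i => Sum.inl (inp l (cls N k₀), pos N τ i), ?_, ?_⟩
    · intro i i' h
      have := (Prod.ext_iff.1 (Sum.inl_injective h)).2
      exact pos_injective N τ this
    · intro i
      exact (adj_of_good hN hH hcol l k₀ (pos N τ i) (by rw [cls_pos]; exact hg)).symm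

open Classical in
/-- For every `N ≥ 1` there is a `5`-critical graph with `16 (2 N + 1)` vertices and minimum
degree at least `N`. -/
theorem exists_five_critical (N : ℕ) (hN : 1 ≤ N) :
    ∃ H : SimpleGraph (Fin (16 * (2 * N + 1))), IsCritical 5 H ∧ N ≤ H.minDegree := by
  obtain ⟨H, hH, hcol, hmin⟩ := exists_minimal_not_colorable (not_colorable hN)
  have hnb := exists_neighbors hN hH hcol
  have hcard : Fintype.card (Vtx N) = 16 * (2 * N + 1) := by
    rw [Fintype.card_sum, Fintype.card_prod, Fintype.card_fin, Fintype.card_fin]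
    ring
  let e : Vtx N ≃ Fin (16 * (2 * N + 1)) := Fintype.equivFinOfCardEq hcard
  -- transport everything to `Fin (16 * (2 * N + 1))`
  let H' : SimpleGraph (Fin (16 * (2 * N + 1))) := H.comap e.symm
  have hnb' : ∀ v, ∃ f : Fin N → Fin (16 * (2 * N + 1)), Function.Injective f ∧
      ∀ i, H'.Adj v (f i) := by
    intro v
    obtain ⟨f, hinj, hf⟩ := hnb (e.symm v)
    refine ⟨fun i => e (f i), e.injective.comp hinj, fun i => ?_⟩
    change H.Adj (e.symm v) (e.symm (e (f i)))
    rw [e.symm_apply_apply]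
    exact hf i
  have hcol' : ¬ H'.Colorable 4 := by
    rintro ⟨C⟩
    apply hcol
    refine ⟨SimpleGraph.Coloring.mk (fun v => C (e v)) fun {x y} hxy => C.valid ?_⟩
    change H.Adj (e.symm (e x)) (e.symm (e y))
    rw [e.symm_apply_apply, e.symm_apply_apply]
    exact hxy
  have hmin' : ∀ K' < H', K'.Colorable 4 := by
    intro K' hK'
    have hlt : K'.comap e < H := by
      refine lt_of_le_of_ne ?_ ?_
      · intro x y hxy
        have h1 : H'.Adj (e x) (e y) := hK'.le hxy
        change H.Adj (e.symm (e x)) (e.symm (e y)) at h1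
        rwa [e.symm_apply_apply, e.symm_apply_apply] at h1
      · intro heq
        apply hK'.ne
        ext x y
        change K'.Adj x y ↔ H.Adj (e.symm x) (e.symm y)
        rw [← heq]
        change K'.Adj x y ↔ K'.Adj (e (e.symm x)) (e (e.symm y))
        rw [e.apply_symm_apply, e.apply_symm_apply]
    obtain ⟨C⟩ := hmin _ hlt
    refine ⟨SimpleGraph.Coloring.mk (fun v => C (e.symm v)) fun {x y} hxy => C.valid ?_⟩
    change K'.Adj (e (e.symm x)) (e (e.symm y))
    rw [e.apply_symm_apply, e.apply_symm_apply]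
    exact hxy
  have hne : Nonempty (Fin (16 * (2 * N + 1))) := ⟨⟨0, by omega⟩⟩
  refine ⟨H', isCritical_of_minimal hcol' hmin' ?_ hne, ?_⟩
  · intro v
    obtain ⟨f, -, hf⟩ := hnb' v
    exact ⟨f ⟨0, hN⟩, hf _⟩
  · refine SimpleGraph.le_minDegree_of_forall_le_degree _ _ fun v => ?_
    obtain ⟨f, hinj, hf⟩ := hnb' v
    rw [← SimpleGraph.card_neighborFinset_eq_degree]
    calc N = (Finset.univ.image f).card := by
          rw [Finset.card_image_of_injective _ hinj, Finset.card_univ, Fintype.card_fin]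
      _ ≤ _ := Finset.card_le_card (by
          intro x hx
          rw [Finset.mem_image] at hx
          obtain ⟨i, -, rfl⟩ := hx
          rw [SimpleGraph.mem_neighborFinset]
          exact hf i)

end Pool.Agent.Helper53.Crit
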