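import Mathlib

/-!
# Density-modified quotients: definitions

The space `FMQ Y A` (the quotient `Y / A` in which neighbourhoods of the collapsed point are
required to be dense), `k_2`-Hausdorff spaces, and the Cech-Stone remainder `beta N \ N`.
-/

open Set Topology

namespace Pool.Agent.Helper53.FMQuot

universe u v

/-! ### Definitions -/

/-- The equivalence relation on `Y` that identifies all points of `A` with each other and
nothing else. -/
def collapse {Y : Type u} (A : Set Y) : Setoid Y where
  r x y := x = y ∨ (x ∈ A ∧ y ∈ A)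
  iseqv :=
    { refl := fun _ => Or.inl rfl
      symm := by
        rintro x y (h | h)
        · exact Or.inl h.symm
        · exact Or.inr ⟨h.2, h.1⟩
      trans := by
        rintro x y z (h | h) (h' | h')
        · exact Or.inl (h.trans h')
        · exact Or.inr ⟨h ▸ h'.1, h'.2⟩
        · exact Or.inr ⟨h.1, h' ▸ h.2⟩
        · exact Or.inr ⟨h.1, h'.2⟩ }

/-- The set `Y / A`, the carrier of `FMQ(Y, A, D_Y)`. -/
def FMQ (Y : Type u) (A : Set Y) : Type u := Quotient (collapse A)

/-- The quotient map `q : Y → Y / A`. -/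
def FMQ.q {Y : Type u} (A : Set Y) : Y → FMQ Y A := Quotient.mk (collapse A)

/-- The topology of `FMQ(Y, A, D_Y)`: a set `U` is open iff `q⁻¹ U` is open in `Y` and,
in case the collapsed point `q(A)` belongs to `U`, `q⁻¹ U` is moreover dense in `Y`. -/
instance FMQ.topology {Y : Type u} [TopologicalSpace Y] (A : Set Y) :
    TopologicalSpace (FMQ Y A) where
  IsOpen U := IsOpen (FMQ.q A ⁻¹' U) ∧ ((∃ a ∈ A, FMQ.q A a ∈ U) → Dense (FMQ.q A ⁻¹' U))
  isOpen_univ := ⟨by simp, fun _ => by simp⟩
  isOpen_inter := by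
    rintro U V ⟨hU, hU'⟩ ⟨hV, hV'⟩
    refine ⟨hU.inter hV, ?_⟩
    rintro ⟨a, ha, haU, haV⟩
    exact (hU' ⟨a, ha, haU⟩).inter_of_isOpen_left (hV' ⟨a, ha, haV⟩) hU
  isOpen_sUnion := by
    intro 𝒰 h
    refine ⟨?_, ?_⟩
    · rw [preimage_sUnion]
      exact isOpen_biUnion fun U hU => (h U hU).1
    · rintro ⟨a, ha, U, hU, haU⟩
      refine ((h U hU).2 ⟨a, ha, haU⟩).mono ?_
      exact preimage_mono (subset_sUnion_of_mem hU)

/-- `X` is `k_2`-Hausdorff: for every compact Hausdorff space `K` and every continuous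
`f : K → X` the set `{(a, b) : f a = f b}` is closed in `K × K`. -/
def IsK2Hausdorff (X : Type u) [TopologicalSpace X] : Prop :=
  ∀ (K : Type v) [TopologicalSpace K] [CompactSpace K] [T2Space K] (f : K → X),
    Continuous f → IsClosed {p : K × K | f p.1 = f p.2}

/-- The Cech-Stone remainder `beta N \ N` of the discrete space `N`. -/
abbrev Remainder : Type := {x : StoneCech ℕ // x ∉ range (stoneCechUnit : ℕ → StoneCech ℕ)}

end Pool.Agent.Helper53.FMQuot
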