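import Mathlib
import Pool.Agent.Helper53.FMQuotDefs

/-!
# Density-modified quotients of crowded regular spaces are `k_2`-Hausdorff

For a space `Y` without isolated points which is regular and Hausdorff, and a closed set `A`,
the space `FMQ Y A` (the quotient `Y / A` in which neighbourhoods of the collapsed point are
required to be dense) is `k_2`-Hausdorff.  We apply this to `Y = beta N \ N`.
-/

set_option linter.unusedSectionVars false

open Set Topology Filter

namespace Pool.Agent.Helper53.FMQuot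

universe u v

/-! ### Basic facts on `FMQ` -/

section Basic

variable {Y : Type u} {A : Set Y}

theorem q_eq_iff {x y : Y} : FMQ.q A x = FMQ.q A y ↔ x = y ∨ (x ∈ A ∧ y ∈ A) :=
  Quotient.eq (r := collapse A)

theorem q_surj (z : FMQ Y A) : ∃ y, FMQ.q A y = z := Quotient.exists_rep z

theorem preimage_image {W : Set Y} (hW : Disjoint W A) : FMQ.q A ⁻¹' (FMQ.q A '' W) = W := by
  ext y
  simp only [mem_preimage, mem_image]
  constructor
  · rintro ⟨w, hw, hwy⟩
    rcases q_eq_iff.1 hwy with h | h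
    · exact h ▸ hw
    · exact absurd h.1 (disjoint_left.1 hW hw)
  · exact fun hy => ⟨y, hy, rfl⟩

theorem preimage_image_self : FMQ.q A ⁻¹' (FMQ.q A '' A) = A := by
  ext y
  simp only [mem_preimage, mem_image]
  constructor
  · rintro ⟨w, hw, hwy⟩
    rcases q_eq_iff.1 hwy with h | h
    · exact h ▸ hw
    · exact h.2
  · exact fun hy => ⟨y, hy, rfl⟩

variable [TopologicalSpace Y]

theorem isOpen_iff {U : Set (FMQ Y A)} : IsOpen U ↔
    IsOpen (FMQ.q A ⁻¹' U) ∧ ((∃ a ∈ A, FMQ.q A a ∈ U) → Dense (FMQ.q A ⁻¹' U)) := Iff.rfl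

theorem isOpen_image {W : Set Y} (hWo : IsOpen W) (hW : Disjoint W A) :
    IsOpen (FMQ.q A '' W) := by
  rw [isOpen_iff, preimage_image hW]
  refine ⟨hWo, ?_⟩
  rintro ⟨a, ha, w, hw, hwa⟩
  rcases q_eq_iff.1 hwa with h | h
  · exact absurd ha (h ▸ disjoint_left.1 hW hw)
  · exact absurd h.1 (disjoint_left.1 hW hw)

theorem isClosed_image {N : Set Y} (hNc : IsClosed N) (hN : Disjoint N A)
    (hNi : interior N = ∅) : IsClosed (FMQ.q A '' N) := by
  rw [← isOpen_compl_iff, isOpen_iff, preimage_compl, preimage_image hN]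
  exact ⟨hNc.isOpen_compl, fun _ => interior_eq_empty_iff_dense_compl.1 hNi⟩

theorem isClosed_image_self (hA : IsClosed A) : IsClosed (FMQ.q A '' A) := by
  rw [← isOpen_compl_iff, isOpen_iff, preimage_compl, preimage_image_self]
  refine ⟨hA.isOpen_compl, ?_⟩
  rintro ⟨a, ha, ha'⟩
  exact absurd ⟨a, ha, rfl⟩ ha'

end Basic

/-! ### Discrete sequences have nowhere dense closure -/

theorem interior_closure_range {Y : Type u} [TopologicalSpace Y] [T1Space Y]
    (hY : ∀ y : Y, ¬ IsOpen ({y} : Set Y)) (W : ℕ → Set Y) (hWo : ∀ n, IsOpen (W n))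
    (hWd : ∀ m n, m ≠ n → Disjoint (W m) (W n)) (y : ℕ → Y) (hy : ∀ n, y n ∈ W n) :
    interior (closure (range y)) = ∅ := by
  by_contra hne
  obtain ⟨z, hz⟩ := nonempty_iff_ne_empty.2 hne
  have hVo : IsOpen (interior (closure (range y))) := isOpen_interior
  obtain ⟨_, hzV, ⟨n, rfl⟩⟩ := mem_closure_iff.1 (interior_subset hz) _ hVo hz
  have hG : IsOpen (interior (closure (range y)) ∩ W n) := hVo.inter (hWo n)
  have hG' : IsOpen ((interior (closure (range y)) ∩ W n) \ {y n}) :=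
    hG.sdiff isClosed_singleton
  have hne' : ((interior (closure (range y)) ∩ W n) \ {y n}).Nonempty := by
    by_contra h
    rw [not_nonempty_iff_eq_empty, sdiff_eq_empty] at h
    have : interior (closure (range y)) ∩ W n = {y n} :=
      Subset.antisymm h (singleton_subset_iff.2 ⟨hzV, hy n⟩)
    exact hY (y n) (this ▸ hG)
  obtain ⟨w, hw⟩ := hne'
  obtain ⟨_, hv, ⟨m, rfl⟩⟩ := mem_closure_iff.1 (interior_subset hw.1.1) _ hG' hw
  have hmn : m = n := by
    by_contra hmn
    exact disjoint_left.1 (hWd m n hmn) (hy m) hv.1.2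
  exact hv.2 (by rw [hmn]; rfl)

/-! ### The main argument -/

section Main

variable {Y : Type u} [TopologicalSpace Y] [T3Space Y] (hY : ∀ y : Y, ¬ IsOpen ({y} : Set Y))
  {A : Set Y} (hA : IsClosed A)
  {K : Type v} [TopologicalSpace K] [CompactSpace K] [T2Space K] {f : K → FMQ Y A}
  (hf : Continuous f)

/-- `P f W` is the set of points of `K` sent by `f` into (the image of) `W`. -/
def P (f : K → FMQ Y A) (W : Set Y) : Set K := f ⁻¹' (FMQ.q A '' W)

theorem P_mono {V W : Set Y} (h : V ⊆ W) : P f V ⊆ P f W :=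
  preimage_mono (image_mono h)

/-- A set is small if the closure of its preimage misses the fibre over the special point. -/
def Small (f : K → FMQ Y A) (W : Set Y) : Prop := Disjoint (closure (P f W)) (P f A)

theorem Small.mono {V W : Set Y} (h : V ⊆ W) (hW : Small f W) : Small f V :=
  Disjoint.mono_left (closure_mono (P_mono h)) hW

include hf in
theorem isOpen_P {W : Set Y} (hWo : IsOpen W) (hW : Disjoint W A) : IsOpen (P f W) :=
  (isOpen_image hWo hW).preimage hf

include hf in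
theorem isClosed_P {N : Set Y} (hNc : IsClosed N) (hN : Disjoint N A)
    (hNi : interior N = ∅) : IsClosed (P f N) :=
  (isClosed_image hNc hN hNi).preimage hf

include hf hA in
theorem isClosed_PA : IsClosed (P f A) := (isClosed_image_self hA).preimage hf

theorem disjoint_P {V W : Set Y} (hVA : Disjoint V A) (hVW : Disjoint V W) :
    Disjoint (P f V) (P f W) := by
  rw [disjoint_left]
  rintro k ⟨v, hv, hvk⟩ ⟨w, hw, hwk⟩
  rcases q_eq_iff.1 (hvk.trans hwk.symm) with h | h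
  · exact disjoint_left.1 hVW hv (h ▸ hw)
  · exact disjoint_left.1 hVA hv h.1

include hY hf in
/-- Key lemma, part 1: there is an open `G` whose closure misses the special fibre, containing
the preimage of the boundary part, such that only finitely many members stick out of `G`. -/
theorem key {O : Set Y} (hO : IsOpen O) (hOA : Disjoint (closure O) A) (hA : IsClosed A)
    {𝒲 : Set (Set Y)} (hWo : ∀ W ∈ 𝒲, IsOpen W) (hWs : ∀ W ∈ 𝒲, W ⊆ O)
    (hWd : ∀ V ∈ 𝒲, ∀ W ∈ 𝒲, V ≠ W → Disjoint V W)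
    (hWdense : O ⊆ closure (⋃₀ 𝒲)) :
    ∃ G : Set K, Disjoint (closure G) (P f A) ∧ P f (closure O \ ⋃₀ 𝒲) ⊆ G ∧
      {W ∈ 𝒲 | ¬ P f W ⊆ G}.Finite := by
  set N : Set Y := closure O \ ⋃₀ 𝒲 with hN
  have hUo : IsOpen (⋃₀ 𝒲) := isOpen_sUnion hWo
  have hNc : IsClosed N := isClosed_closure.sdiff hUo
  have hNA : Disjoint N A := hOA.mono_left sdiff_subset
  have hNi : interior N = ∅ := by
    by_contra hne
    obtain ⟨z, hz⟩ := nonempty_iff_ne_empty.2 hne
    obtain ⟨w, hw, hwO⟩ := mem_closure_iff.1 (interior_subset hz).1 _ isOpen_interior hz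
    obtain ⟨x, hx, hxU⟩ := mem_closure_iff.1 (hWdense hwO) _ isOpen_interior hw
    exact (interior_subset hx).2 hxU
  have hPN : IsClosed (P f N) := isClosed_P hf hNc hNA hNi
  have hPA : IsClosed (P f A) := isClosed_PA hA hf
  have hdisj : Disjoint (P f N) (P f A) := disjoint_P hNA hNA
  obtain ⟨G, hGo, hNG, hGA⟩ := normal_exists_closure_subset hPN hPA.isOpen_compl
    (subset_compl_iff_disjoint_right.2 hdisj)
  refine ⟨G, subset_compl_iff_disjoint_right.1 hGA, hNG, ?_⟩
  by_contra hinf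
  have hinf' : {W ∈ 𝒲 | ¬ P f W ⊆ G}.Infinite := hinf
  let e := hinf'.natEmbedding
  have he : ∀ n, (e n : Set Y) ∈ 𝒲 := fun n => (e n).2.1
  have hx : ∀ n, ∃ x, x ∈ P f (e n : Set Y) ∧ x ∉ G := fun n =>
    not_subset.1 (e n).2.2
  choose x hxP hxG using hx
  choose y hyW hyx using hxP
  have hed : ∀ m n, m ≠ n → Disjoint (e m : Set Y) (e n : Set Y) := fun m n hmn =>
    hWd _ (he m) _ (he n) fun h => hmn (e.injective (Subtype.ext h))
  have hSi : interior (closure (range y)) = ∅ :=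
    interior_closure_range hY (fun n => (e n : Set Y)) (fun n => hWo _ (he n)) hed y hyW
  have hSO : closure (range y) ⊆ closure O :=
    closure_mono (range_subset_iff.2 fun n => hWs _ (he n) (hyW n))
  have hSc : IsClosed (P f (closure (range y))) :=
    isClosed_P hf isClosed_closure (hOA.mono_left hSO) hSi
  have hxT : ∀ n, x n ∈ P f (closure (range y)) ∩ Gᶜ := fun n =>
    ⟨⟨y n, subset_closure ⟨n, rfl⟩, hyx n⟩, hxG n⟩
  have hTc : IsCompact (P f (closure (range y)) ∩ Gᶜ) :=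
    (hSc.inter hGo.isClosed_compl).isCompact
  obtain ⟨k, ⟨⟨s, hs, hsk⟩, hkG⟩, hk⟩ :=
    hTc.exists_mapClusterPt (f := (atTop : Filter ℕ)) (u := x)
      (le_principal_iff.2 (mem_map.2 (univ_mem' hxT)))
  have hsN : s ∉ N := fun h => hkG (hNG ⟨s, h, hsk⟩)
  have hsU : s ∈ ⋃₀ 𝒲 := by
    by_contra h
    exact hsN ⟨hSO hs, h⟩
  obtain ⟨W, hW, hsW⟩ := hsU
  have hWA : Disjoint W A := hOA.mono_left ((hWs W hW).trans subset_closure)
  have hnhds : P f W ∈ 𝓝 k := (isOpen_P hf (hWo W hW) hWA).mem_nhds ⟨s, hsW, hsk⟩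
  have hfreq : ∃ᶠ n in atTop, x n ∈ P f W := hk.frequently hnhds
  have hWe : ∀ n, x n ∈ P f W → (e n : Set Y) = W := by
    rintro n ⟨w, hw, hwx⟩
    by_contra hne
    rcases q_eq_iff.1 (hwx.trans (hyx n).symm) with h | h
    · exact disjoint_left.1 (hWd _ (he n) _ hW hne) (hyW n) (h ▸ hw)
    · exact disjoint_left.1 hWA hw h.1
  obtain ⟨m, -, hm⟩ := frequently_atTop.1 hfreq 0
  obtain ⟨n, hn, hn'⟩ := frequently_atTop.1 hfreq (m + 1)
  have : m = n := e.injective (Subtype.ext ((hWe m hm).trans (hWe n hn').symm))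
  omega

include hY hf in
/-- Key lemma, part 2: all but finitely many members of the family are small. -/
theorem key_finite {O : Set Y} (hO : IsOpen O) (hOA : Disjoint (closure O) A) (hA : IsClosed A)
    {𝒲 : Set (Set Y)} (hWo : ∀ W ∈ 𝒲, IsOpen W) (hWs : ∀ W ∈ 𝒲, W ⊆ O)
    (hWd : ∀ V ∈ 𝒲, ∀ W ∈ 𝒲, V ≠ W → Disjoint V W)
    (hWdense : O ⊆ closure (⋃₀ 𝒲)) : {W ∈ 𝒲 | ¬ Small f W}.Finite := by
  obtain ⟨G, hGA, -, hfin⟩ := key hY hf hO hOA hA hWo hWs hWd hWdense
  refine hfin.subset ?_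
  rintro W ⟨hW, hWn⟩
  refine ⟨hW, fun h => hWn ?_⟩
  exact hGA.mono_left (closure_mono h)

include hY hf in
/-- Key lemma, part 3: if all members of the family are small then so is `O`. -/
theorem key_small {O : Set Y} (hO : IsOpen O) (hOA : Disjoint (closure O) A) (hA : IsClosed A)
    {𝒲 : Set (Set Y)} (hWo : ∀ W ∈ 𝒲, IsOpen W) (hWs : ∀ W ∈ 𝒲, W ⊆ O)
    (hWd : ∀ V ∈ 𝒲, ∀ W ∈ 𝒲, V ≠ W → Disjoint V W)
    (hWdense : O ⊆ closure (⋃₀ 𝒲)) (hsmall : ∀ W ∈ 𝒲, Small f W) : Small f O := by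
  obtain ⟨G, hGA, hNG, hfin⟩ := key hY hf hO hOA hA hWo hWs hWd hWdense
  have hsub : P f O ⊆ G ∪ ⋃ W ∈ {W ∈ 𝒲 | ¬ P f W ⊆ G}, P f W := by
    rintro k ⟨s, hs, hsk⟩
    by_cases hsU : s ∈ ⋃₀ 𝒲
    · obtain ⟨W, hW, hsW⟩ := hsU
      by_cases hWG : P f W ⊆ G
      · exact Or.inl (hWG ⟨s, hsW, hsk⟩)
      · exact Or.inr (mem_biUnion (show W ∈ {W ∈ 𝒲 | ¬ P f W ⊆ G} from ⟨hW, hWG⟩) ⟨s, hsW, hsk⟩)
    · exact Or.inl (hNG ⟨s, ⟨subset_closure hs, hsU⟩, hsk⟩)
  have hcl : closure (P f O) ⊆ closure G ∪ ⋃ W ∈ {W ∈ 𝒲 | ¬ P f W ⊆ G}, closure (P f W) := by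
    refine (closure_mono hsub).trans ?_
    rw [closure_union, hfin.closure_biUnion]
  refine Disjoint.mono_left hcl ?_
  rw [disjoint_union_left]
  refine ⟨hGA, ?_⟩
  simp only [disjoint_iUnion_left]
  rintro W hW
  exact hsmall W hW.1

include hY hf hA in
/-- Every open set whose closure misses `A` is small. -/
theorem small_of_isOpen {O : Set Y} (hO : IsOpen O) (hOA : Disjoint (closure O) A) :
    Small f O := by
  -- First: below every nonempty open set there is a nonempty small open set.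
  have hdense : ∀ W : Set Y, IsOpen W → W ⊆ O → W.Nonempty →
      ∃ V, IsOpen V ∧ V ⊆ W ∧ V.Nonempty ∧ Small f V := by
    intro W₀ hW₀o hW₀O hW₀ne
    by_contra hcon
    push Not at hcon
    -- `W₀` is infinite, so it contains infinitely many disjoint nonempty open subsets.
    have hinf : W₀.Infinite := by
      intro hfin
      obtain ⟨w, hw⟩ := hW₀ne
      apply hY w
      have h1 : IsClosed (W₀ \ {w}) := (hfin.subset sdiff_subset).isClosed
      have h2 : IsOpen (W₀ \ (W₀ \ {w})) := hW₀o.sdiff h1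
      rwa [sdiff_sdiff_right_self, inter_eq_right.2 (singleton_subset_iff.2 hw)] at h2
    have : Infinite W₀ := hinf.to_subtype
    obtain ⟨U, hUi, hUo, hUd⟩ := exists_seq_infinite_isOpen_pairwise_disjoint W₀
    let V : ℕ → Set Y := fun n => Subtype.val '' U n
    have hVo : ∀ n, IsOpen (V n) := fun n => hW₀o.isOpenMap_subtype_val _ (hUo n)
    have hVne : ∀ n, (V n).Nonempty := fun n => (hUi n).nonempty.image _
    have hVW : ∀ n, V n ⊆ W₀ := fun n => by
      rintro _ ⟨z, -, rfl⟩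
      exact z.2
    have hVd : ∀ m n, m ≠ n → Disjoint (V m) (V n) := by
      intro m n hmn
      exact (disjoint_image_iff Subtype.val_injective).2 (hUd hmn)
    have hVinj : Function.Injective V := by
      intro m n h
      by_contra hmn
      have := hVd m n hmn
      rw [h, disjoint_self] at this
      exact (hVne n).ne_empty this
    set R : Set Y := W₀ \ closure (⋃ n, V n) with hR
    have hRo : IsOpen R := hW₀o.sdiff isClosed_closure
    have hRV : ∀ n, Disjoint (V n) R := fun n => by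
      rw [disjoint_left]
      intro z hz hzR
      exact hzR.2 (subset_closure (mem_iUnion.2 ⟨n, hz⟩))
    have hcl : closure W₀ ⊆ closure O := closure_mono hW₀O
    have hfin := key_finite (𝒲 := insert R (range V)) hY hf hW₀o (hOA.mono_left hcl) hA
      (by
        rintro W (rfl | ⟨n, rfl⟩)
        · exact hRo
        · exact hVo n)
      (by
        rintro W (rfl | ⟨n, rfl⟩)
        · exact sdiff_subset
        · exact hVW n)
      (by
        rintro _ (rfl | ⟨m, rfl⟩) _ (rfl | ⟨n, rfl⟩) hne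
        · exact absurd rfl hne
        · exact (hRV n).symm
        · exact hRV m
        · exact hVd m n fun h => hne (by rw [h]))
      (by
        intro z hz
        by_cases h : z ∈ closure (⋃ n, V n)
        · refine closure_mono ?_ h
          exact iUnion_subset fun n => subset_sUnion_of_mem (Or.inr ⟨n, rfl⟩)
        · exact subset_closure ⟨R, Or.inl rfl, hz, h⟩)
    refine (infinite_range_of_injective hVinj) (hfin.subset ?_)
    rintro _ ⟨n, rfl⟩
    exact ⟨Or.inr ⟨n, rfl⟩, hcon (V n) (hVo n) (hVW n) (hVne n)⟩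
  -- Take a maximal disjoint family of nonempty small open subsets of `O`.
  obtain ⟨𝒲, h𝒲⟩ := zorn_subset
    {𝒲 : Set (Set Y) | (∀ W ∈ 𝒲, IsOpen W ∧ W ⊆ O ∧ W.Nonempty ∧ Small f W) ∧
      ∀ V ∈ 𝒲, ∀ W ∈ 𝒲, V ≠ W → Disjoint V W} (by
    intro c hc hchain
    refine ⟨⋃₀ c, ⟨?_, ?_⟩, fun s hs => subset_sUnion_of_mem hs⟩
    · rintro W ⟨t, ht, hWt⟩
      exact (hc ht).1 W hWt
    · rintro V ⟨s, hs, hVs⟩ W ⟨t, ht, hWt⟩ hne
      rcases hchain.total hs ht with h | h
      · exact (hc ht).2 V (h hVs) W hWt hne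
      · exact (hc hs).2 V hVs W (h hWt) hne)
  have hmem := h𝒲.prop
  refine key_small (𝒲 := 𝒲) hY hf hO hOA hA (fun W hW => (hmem.1 W hW).1)
    (fun W hW => (hmem.1 W hW).2.1) hmem.2 ?_ (fun W hW => (hmem.1 W hW).2.2.2)
  by_contra hnd
  obtain ⟨z, hzO, hz⟩ := not_subset.1 hnd
  obtain ⟨V, hVo, hVs, hVne, hVsmall⟩ := hdense (O \ closure (⋃₀ 𝒲))
    (hO.sdiff isClosed_closure) sdiff_subset ⟨z, hzO, hz⟩
  have hVdisj : ∀ W ∈ 𝒲, Disjoint V W := fun W hW => by
    rw [disjoint_left]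
    intro a haV haW
    exact (hVs haV).2 (subset_closure ⟨W, hW, haW⟩)
  have hins : insert V 𝒲 ∈ {𝒲 : Set (Set Y) |
      (∀ W ∈ 𝒲, IsOpen W ∧ W ⊆ O ∧ W.Nonempty ∧ Small f W) ∧
      ∀ V ∈ 𝒲, ∀ W ∈ 𝒲, V ≠ W → Disjoint V W} := by
    refine ⟨?_, ?_⟩
    · rintro W (rfl | hW)
      · exact ⟨hVo, hVs.trans sdiff_subset, hVne, hVsmall⟩
      · exact hmem.1 W hW
    · rintro W₁ (rfl | hW₁) W₂ (rfl | hW₂) hne
      · exact absurd rfl hne
      · exact hVdisj W₂ hW₂
      · exact (hVdisj W₁ hW₁).symm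
      · exact hmem.2 W₁ hW₁ W₂ hW₂ hne
  have hV𝒲 : V ∈ 𝒲 := h𝒲.le_of_ge hins (subset_insert V 𝒲) (mem_insert V 𝒲)
  obtain ⟨a, ha⟩ := hVne
  exact disjoint_left.1 (hVdisj V hV𝒲) ha ha

end Main

/-- General theorem: for every regular Hausdorff space `Y` without isolated points and every
closed `A ⊆ Y`, the space `FMQ(Y, A, D_Y)` is `k_2`-Hausdorff. -/
theorem isK2Hausdorff_of_crowded (Y : Type u) [TopologicalSpace Y] [T3Space Y]
    (hY : ∀ y : Y, ¬ IsOpen ({y} : Set Y)) (A : Set Y) (hA : IsClosed A) :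
    IsK2Hausdorff.{u, v} (FMQ Y A) := by
  intro K _ _ _ f hf
  -- separation of a point over `Y \ A` from a point of the special fibre
  have hsep : ∀ a b : K, f a ∉ FMQ.q A '' A → f b ∈ FMQ.q A '' A →
      ∃ U V : Set K, IsOpen U ∧ IsOpen V ∧ a ∈ U ∧ b ∈ V ∧ ∀ x ∈ U, ∀ y ∈ V, f x ≠ f y := by
    intro a b ha hb
    obtain ⟨y, hy⟩ := q_surj (f a)
    have hyA : y ∈ Aᶜ := fun h => ha ⟨y, h, hy⟩
    obtain ⟨C, hC, hCc, hCA⟩ := exists_mem_nhds_isClosed_subset (hA.isOpen_compl.mem_nhds hyA)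
    have hOA : Disjoint (closure (interior C)) A := by
      rw [← subset_compl_iff_disjoint_right]
      exact (closure_minimal interior_subset hCc).trans hCA
    have hO : IsOpen (interior C) := isOpen_interior
    have hyO : y ∈ interior C := mem_interior_iff_mem_nhds.2 hC
    have hsmall := small_of_isOpen hY hA hf hO hOA
    refine ⟨P f (interior C), (closure (P f (interior C)))ᶜ,
      isOpen_P hf hO (hOA.mono_left subset_closure), isClosed_closure.isOpen_compl,
      ⟨y, hyO, hy⟩, fun h => disjoint_left.1 hsmall h hb, ?_⟩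
    intro x hx z hz hxz
    apply hz
    apply subset_closure
    change f z ∈ FMQ.q A '' interior C
    rw [← hxz]
    exact hx
  rw [← isOpen_compl_iff, isOpen_iff_mem_nhds]
  rintro ⟨a, b⟩ hab
  have hab' : f a ≠ f b := hab
  suffices h : ∃ U V : Set K, IsOpen U ∧ IsOpen V ∧ a ∈ U ∧ b ∈ V ∧ ∀ x ∈ U, ∀ y ∈ V, f x ≠ f y by
    obtain ⟨U, V, hU, hV, haU, hbV, hUV⟩ := h
    refine Filter.mem_of_superset ((hU.prod hV).mem_nhds ⟨haU, hbV⟩) ?_
    rintro ⟨x, y⟩ ⟨hx, hy⟩
    exact hUV x hx y hy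
  by_cases ha : f a ∈ FMQ.q A '' A
  · by_cases hb : f b ∈ FMQ.q A '' A
    · exfalso
      obtain ⟨x, hx, hxa⟩ := ha
      obtain ⟨y, hy, hyb⟩ := hb
      exact hab' (hxa.symm.trans ((q_eq_iff.2 (Or.inr ⟨hx, hy⟩)).trans hyb))
    · obtain ⟨U, V, hU, hV, haU, hbV, hUV⟩ := hsep b a hb ha
      exact ⟨V, U, hV, hU, hbV, haU, fun x hx y hy h => hUV y hy x hx h.symm⟩
  · by_cases hb : f b ∈ FMQ.q A '' A
    · exact hsep a b ha hb
    · obtain ⟨x, hx⟩ := q_surj (f a)
      obtain ⟨y, hy⟩ := q_surj (f b)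
      have hxA : x ∉ A := fun h => ha ⟨x, h, hx⟩
      have hyA : y ∉ A := fun h => hb ⟨y, h, hy⟩
      have hxy : x ≠ y := by
        rintro rfl
        exact hab' (hx.symm.trans hy)
      obtain ⟨U, V, hU, hV, hxU, hyV, hUV⟩ := t2_separation hxy
      have hUA : Disjoint (U \ A) A := disjoint_sdiff_left
      have hVA : Disjoint (V \ A) A := disjoint_sdiff_left
      refine ⟨P f (U \ A), P f (V \ A), isOpen_P hf (hU.sdiff hA) hUA,
        isOpen_P hf (hV.sdiff hA) hVA, ⟨x, ⟨hxU, hxA⟩, hx⟩, ⟨y, ⟨hyV, hyA⟩, hy⟩, ?_⟩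
      intro k hk l hl hkl
      have hd : Disjoint (P f (U \ A)) (P f (V \ A)) :=
        disjoint_P hUA (hUV.mono sdiff_subset sdiff_subset)
      refine disjoint_left.1 hd hk ?_
      change f k ∈ FMQ.q A '' (V \ A)
      rw [hkl]
      exact hl

/-! ### The remainder `beta N \ N` is compact Hausdorff without isolated points -/

section Rem

/-- The indicator of `S` as a continuous `Bool`-valued function on the discrete space `ℕ`. -/
noncomputable def chi (S : Set ℕ) : ℕ → Bool := fun n => by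
  classical exact decide (n ∈ S)

theorem chi_eq_true {S : Set ℕ} {n : ℕ} : chi S n = true ↔ n ∈ S := by
  simp [chi]

/-- The extension of the indicator of `S` to `beta N`. -/
noncomputable def ext (S : Set ℕ) : StoneCech ℕ → Bool :=
  stoneCechExtend (g := chi S) continuous_of_discreteTopology

theorem continuous_ext (S : Set ℕ) : Continuous (ext S) := continuous_stoneCechExtend _

theorem ext_unit (S : Set ℕ) (n : ℕ) : ext S (stoneCechUnit n) = chi S n :=
  stoneCechExtend_stoneCechUnit _ n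

theorem unit_injective : Function.Injective (stoneCechUnit : ℕ → StoneCech ℕ) := by
  intro m n h
  have h1 := ext_unit {m} m
  rw [h, ext_unit] at h1
  have h2 : chi {m} m = true := chi_eq_true.2 rfl
  rw [h2] at h1
  exact (chi_eq_true.1 h1).symm

theorem isOpen_unit (n : ℕ) : IsOpen ({stoneCechUnit n} : Set (StoneCech ℕ)) := by
  have hU : IsOpen (ext {n} ⁻¹' {true}) := (isOpen_discrete _).preimage (continuous_ext _)
  have : ext {n} ⁻¹' {true} = {stoneCechUnit n} := by
    apply Subset.antisymm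
    · intro x hx
      by_contra hne
      have hV : IsOpen (ext {n} ⁻¹' {true} \ {stoneCechUnit n}) := hU.sdiff isClosed_singleton
      obtain ⟨_, hm, ⟨m, rfl⟩⟩ := mem_closure_iff.1
        ((denseRange_stoneCechUnit (α := ℕ)) x) _ hV ⟨hx, hne⟩
      have h1 : ext {n} (stoneCechUnit m) = true := hm.1
      rw [ext_unit, chi_eq_true] at h1
      exact hm.2 (by rw [mem_singleton_iff.1 h1]; rfl)
    · rintro _ rfl
      change ext {n} (stoneCechUnit n) = true
      rw [ext_unit, chi_eq_true]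
      rfl
  rwa [this] at hU

theorem exists_remainder_mem_closure {T : Set ℕ} (hT : T.Infinite) :
    ∃ z, z ∈ closure (stoneCechUnit '' T) ∧ z ∉ range (stoneCechUnit : ℕ → StoneCech ℕ) := by
  by_contra hcon
  push Not at hcon
  have hc : IsCompact (closure (stoneCechUnit '' T : Set (StoneCech ℕ))) :=
    isClosed_closure.isCompact
  obtain ⟨t, ht⟩ := hc.elim_finite_subcover (fun n : ℕ => ({stoneCechUnit n} : Set (StoneCech ℕ)))
    isOpen_unit (fun z hz => by
      obtain ⟨n, rfl⟩ := hcon z hz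
      exact mem_iUnion.2 ⟨n, rfl⟩)
  apply hT
  refine t.finite_toSet.subset fun n hn => ?_
  have := ht (subset_closure ⟨n, hn, rfl⟩)
  simp only [mem_iUnion, mem_singleton_iff, exists_prop] at this
  obtain ⟨m, hm, hmn⟩ := this
  rw [unit_injective hmn]
  exact hm

theorem exists_disjoint_infinite {S : Set ℕ} (hS : S.Infinite) :
    ∃ S₁ S₂ : Set ℕ, S₁ ⊆ S ∧ S₂ ⊆ S ∧ Disjoint S₁ S₂ ∧ S₁.Infinite ∧ S₂.Infinite := by
  let e := hS.natEmbedding
  have he : Function.Injective fun n : ℕ => (e n : ℕ) := fun m n h => e.injective (Subtype.ext h)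
  refine ⟨range fun n => (e (2 * n) : ℕ), range fun n => (e (2 * n + 1) : ℕ), ?_, ?_, ?_, ?_, ?_⟩
  · rintro _ ⟨n, rfl⟩
    exact (e (2 * n)).2
  · rintro _ ⟨n, rfl⟩
    exact (e (2 * n + 1)).2
  · rw [disjoint_left]
    rintro _ ⟨m, rfl⟩ ⟨n, hn⟩
    have := he hn
    omega
  · exact infinite_range_of_injective fun m n h => by
      have := he h
      omega
  · exact infinite_range_of_injective fun m n h => by
      have := he h
      omega

theorem remainder_crowded (y : Remainder) : ¬ IsOpen ({y} : Set Remainder) := by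
  intro hy
  obtain ⟨O, hO, hOy⟩ := isOpen_induced_iff.1 hy
  have hyO : (y : StoneCech ℕ) ∈ O := by
    have : y ∈ Subtype.val ⁻¹' O := by rw [hOy]; rfl
    exact this
  obtain ⟨C, hC, hCc, hCO⟩ := exists_mem_nhds_isClosed_subset (hO.mem_nhds hyO)
  let S : Set ℕ := stoneCechUnit ⁻¹' (interior C)
  have hS : S.Infinite := by
    intro hfin
    have hV : IsOpen (interior C \ (stoneCechUnit '' S)) :=
      isOpen_interior.sdiff (hfin.image _).isClosed
    obtain ⟨_, hm, ⟨m, rfl⟩⟩ := mem_closure_iff.1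
      ((denseRange_stoneCechUnit (α := ℕ)) (y : StoneCech ℕ)) _ hV
      ⟨mem_interior_iff_mem_nhds.2 hC, fun ⟨n, _, hn⟩ => y.2 ⟨n, hn⟩⟩
    exact hm.2 ⟨m, hm.1, rfl⟩
  obtain ⟨S₁, S₂, h₁, h₂, hd, hi₁, hi₂⟩ := exists_disjoint_infinite hS
  have hmem : ∀ T : Set ℕ, T ⊆ S → ∀ z ∈ closure (stoneCechUnit '' T : Set (StoneCech ℕ)),
      z ∈ O := by
    intro T hT z hz
    apply hCO
    refine closure_minimal ?_ hCc hz
    rintro _ ⟨n, hn, rfl⟩
    exact interior_subset (hT hn)
  obtain ⟨z₁, hz₁, hr₁⟩ := exists_remainder_mem_closure hi₁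
  obtain ⟨z₂, hz₂, hr₂⟩ := exists_remainder_mem_closure hi₂
  have he₁ : ext S₁ z₁ = true := by
    have hcl : IsClosed (ext S₁ ⁻¹' {true}) := (isClosed_discrete _).preimage (continuous_ext _)
    refine closure_minimal ?_ hcl hz₁
    rintro _ ⟨n, hn, rfl⟩
    change ext S₁ (stoneCechUnit n) = true
    rw [ext_unit, chi_eq_true]
    exact hn
  have he₂ : ext S₁ z₂ ≠ true := by
    have hcl : IsClosed (ext S₁ ⁻¹' {true}ᶜ) := (isClosed_discrete _).preimage (continuous_ext _)
    refine closure_minimal ?_ hcl hz₂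
    rintro _ ⟨n, hn, rfl⟩
    change ¬ ext S₁ (stoneCechUnit n) = true
    rw [ext_unit, chi_eq_true]
    exact disjoint_right.1 hd hn
  have hy₁ : (⟨z₁, hr₁⟩ : Remainder) = y := by
    have : (⟨z₁, hr₁⟩ : Remainder) ∈ (Subtype.val ⁻¹' O : Set Remainder) := hmem S₁ h₁ z₁ hz₁
    rw [hOy] at this
    exact this
  have hy₂ : (⟨z₂, hr₂⟩ : Remainder) = y := by
    have : (⟨z₂, hr₂⟩ : Remainder) ∈ (Subtype.val ⁻¹' O : Set Remainder) := hmem S₂ h₂ z₂ hz₂
    rw [hOy] at this
    exact this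
  have : z₁ = z₂ := congrArg Subtype.val (hy₁.trans hy₂.symm)
  exact he₂ (this ▸ he₁)

end Rem

end Pool.Agent.Helper53.FMQuot
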