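import Pool.Agent.Helper53.J.Main
import Pool.Agent.Helper15.J.Conf

/-!
Critical bond percolation on the square lattice: Cardy's formula for T-junctions.

Coordinates `u = x + y`, `w = x - y`.  The junction is the half plane `u ≥ 0` without the two blocks
`u > i`, `w > h + 1` and `u > L`, `w < 1`: three legs, going up (width `i`), down (width `L`) and to the
right (width `h`).  Crossing from the right wall of the upper leg to the walls between the lower and the
right leg.
-/

set_option autoImplicit false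

open H47Perc Set Filter Topology

namespace Pool.Agent.Results.MP_35f495_pr.JunctionCardy

/-- the vertices of the junction, truncated at `x + y ≤ M`, `|x - y| ≤ M` -/
noncomputable def junction (i L h M : ℤ) : Finset (ℤ × ℤ) :=
  (Finset.Icc (-M, -M) (M, M)).filter
    (fun z => 0 ≤ z.1 + z.2 ∧ ¬ (i < z.1 + z.2 ∧ h + 1 < z.1 - z.2) ∧
      ¬ (L < z.1 + z.2 ∧ z.1 - z.2 < 1) ∧ z.1 + z.2 ≤ M ∧ |z.1 - z.2| ≤ M)

/-- the edge `e` cuts across the corner `x + y = i`, `x - y = h + 1` -/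
def Cut (i h : ℤ) (e : Sym2 (ℤ × ℤ)) : Prop := ∃ a b : ℤ × ℤ, e = s(a, b) ∧ a.1 + a.2 = i ∧
  a.1 - a.2 = h + 2 ∧ b.1 + b.2 = i + 1 ∧ b.1 - b.2 = h + 1

open Classical in
/-- some vertex of the right wall `x + y = i`, `x - y ≥ h + 1` of the upper leg is joined by open edges,
none of them cutting across the corner, to some vertex of the right wall `x + y = L`, `x - y ≤ 1` of the
lower leg or of the lower wall `x + y ≥ L`, `x - y = 1` of the right leg -/
def Crossing (i L h : ℤ) (ω : Finset (Sym2 (ℤ × ℤ))) : Prop :=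
  ∃ z z' : ℤ × ℤ, z.1 + z.2 = i ∧ h + 1 ≤ z.1 - z.2 ∧
    ((z'.1 + z'.2 = L ∧ z'.1 - z'.2 ≤ 1) ∨ (L ≤ z'.1 + z'.2 ∧ z'.1 - z'.2 = 1)) ∧
    Joined (ω.filter (fun e => ¬ Cut i h e)) z z'

/-- averaging over the neighbouring odd widths -/
noncomputable def avr (f : ℕ → ℝ) (n : ℕ) : ℝ :=
  f n + (3 * n + 2) * (3 * n + 5) / (9 * (2 * n + 1) * (2 * n + 3)) * (f (n + 2) - f n) +
    (3 * n - 2) * (3 * n + 1) / (9 * (2 * n - 1) * (2 * n + 1)) * (f (n - 2) - f n)

/-- Cardy's function of the cross-ratio -/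
noncomputable def cardyF (a : ℝ) : ℝ :=
  Real.Gamma (2 / 3) / Real.Gamma (1 / 3) ^ 2 * ∫ t in (0 : ℝ)..a, (t * (1 - t)) ^ (-(2 / 3) : ℝ)

/-- the positive root `t` of `t² - (1 - a² - b²) t = b²` -/
noncomputable def tip (a b : ℝ) : ℝ :=
  ((1 - a ^ 2 - b ^ 2) + Real.sqrt ((1 - a ^ 2 - b ^ 2) ^ 2 + 4 * b ^ 2)) / 2

/-- `φ` is a conformal map of the upper half-plane onto the T-junction: `0 < re`, not (`a ≤ re` and
`b ≤ im`), not (`1 ≤ re` and `im ≤ 0`), continuous up to the boundary (except at `0` and `1`), with the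
boundary values: `(-∞,q)` = right wall of the lower leg, `q = -b²/t` = lower corner, `(q,0)` = lower
wall of the right leg, `(0,t)` = upper wall of the right leg, `t` = upper corner, `(t,1)` = right wall of
the upper leg, `(1,∞)` = left wall; the ends of the right, upper and lower leg are `0`, `1`, `∞` -/
structure IsJunctionMap (a b t : ℝ) (φ : ℂ → ℂ) : Prop where
  holomorphic : DifferentiableOn ℂ φ {z | 0 < z.im}
  bijective : BijOn φ {z | 0 < z.im}
    {w | 0 < w.re ∧ ¬ (a ≤ w.re ∧ b ≤ w.im) ∧ ¬ (1 ≤ w.re ∧ w.im ≤ 0)}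
  continuous : ContinuousOn φ ({z | 0 ≤ z.im} \ {0, 1})
  lower_right : ∀ x : ℝ, x < -b ^ 2 / t → (φ x).re = 1
  lower_right_bij : BijOn (fun x : ℝ => (φ x).im) (Iio (-b ^ 2 / t)) (Iio 0)
  lower_corner : φ ((-b ^ 2 / t : ℝ) : ℂ) = 1
  right_lower : ∀ x : ℝ, -b ^ 2 / t < x → x < 0 → (φ x).im = 0
  right_lower_bij : BijOn (fun x : ℝ => (φ x).re) (Ioo (-b ^ 2 / t) 0) (Ioi 1)
  right_upper : ∀ x : ℝ, 0 < x → x < t → (φ x).im = b
  right_upper_bij : BijOn (fun x : ℝ => (φ x).re) (Ioo 0 t) (Ioi a)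
  upper_corner : φ t = a + b * Complex.I
  upper_right : ∀ x : ℝ, t < x → x < 1 → (φ x).re = a
  upper_right_bij : BijOn (fun x : ℝ => (φ x).im) (Ioo t 1) (Ioi b)
  left_wall : ∀ x : ℝ, 1 < x → (φ x).re = 0
  left_wall_bij : BijOn (fun x : ℝ => (φ x).im) (Ioi 1) univ

lemma junction_eq (i L h M : ℤ) : junction i L h M = JN.dom i L h M := by
  classical
  ext z
  rw [JN.mem_dom]
  unfold junction JN.InJ
  rw [Finset.mem_filter, Finset.mem_Icc, Prod.le_def, Prod.le_def]
  simp only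
  constructor
  · rintro ⟨_, h1, h2, h3, h4, h5⟩
    exact ⟨⟨h1, h2, h3⟩, h4, h5⟩
  · rintro ⟨⟨h1, h2, h3⟩, h4, h5⟩
    have h6 := abs_le.1 h5
    exact ⟨by omega, h1, h2, h3, h4, h5⟩

open Classical in
lemma crossing_iff (i L h : ℤ) (ω : Finset (Sym2 (ℤ × ℤ))) :
    Crossing i L h ω ↔ JN.CrJ i L h (ω.filter (fun e => ¬ JN.CutJ i h e)) := by
  have e : (ω.filter (fun e => ¬ Cut i h e)) = ω.filter (fun e => ¬ JN.CutJ i h e) := by
    apply Finset.filter_congr
    intro x _
    rfl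
  unfold Crossing JN.CrJ JN.Src JN.Tg
  constructor
  · rintro ⟨z, z', h1, h2, h3, h4⟩
    rw [e] at h4
    exact ⟨z, z', ⟨h1, h2⟩, h3, h4⟩
  · rintro ⟨z, z', ⟨h1, h2⟩, h3, h4⟩
    rw [← e] at h4
    exact ⟨z, z', h1, h2, h3, h4⟩

open Classical in
lemma crossing_eq (i L h M : ℤ) :
    perc half (junction i L h M) (Crossing i L h) = JN.pJ i L h M := by
  rw [junction_eq, Pool.Agent.Helper69.RSW.perc_half_eq]
  have hsub : JN.jE i L h M ⊆ edgesIn (JN.dom i L h M) := Finset.filter_subset _ _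
  have hD : Pool.Agent.Helper69.RSW.Dep (JN.jE i L h M)
      (fun ω : Finset (Sym2 (ℤ × ℤ)) => JN.CrJ i L h (ω ∩ JN.jE i L h M)) := by
    intro S
    simp only
    rw [Finset.inter_assoc, Finset.inter_self]
  have h1 := Pool.Agent.Helper69.RSW.P_restrict hsub hD
  refine Eq.trans ?_ (h1.trans ?_)
  · apply Pool.Agent.Helper69.RSW.P_congr
    intro S hS
    have e : S.filter (fun e => ¬ JN.CutJ i h e) = S ∩ JN.jE i L h M := by
      ext x
      rw [Finset.mem_filter, Finset.mem_inter]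
      unfold JN.jE
      rw [Finset.mem_filter]
      exact ⟨fun h => ⟨h.1, hS h.1, h.2⟩, fun h => ⟨h.1, h.2.2⟩⟩
    rw [crossing_iff, e]
  · unfold JN.pJ
    apply Pool.Agent.Helper69.RSW.P_congr
    intro S hS
    rw [Finset.inter_eq_left.2 hS]

/-- **Cardy's formula for T-junctions.**  There are `V`, `0 < c` and `C` such that the probability `p` of
the crossing of the T-junction satisfies
(1) for all odd `i`, `L`, `h` and all `M`: `|p - V(i,L,h)| ≤ C exp (-c M / (i+L+h))`, and `V` is exactly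
harmonic: averaging `V` over the neighbouring odd `i` and the neighbouring odd `h` does not change it
(`i, h ≥ 3`);
(2) for all `a, b > 0` and `ε > 0` there are `δ > 0` and `L₀` with
`|p - F(1-t)| ≤ ε + C exp (-c M / (i+L+h))` for all `L ≥ L₀`, all `i`, `h` with `|i/L - a| < δ`,
`|h/L - b| < δ` and all `M`, where `F` is Cardy's function and `t² - (1-a²-b²) t = b²`, `t > 0`;
(3) for all `a, b > 0` there is a conformal map of the upper half-plane onto the T-junction with the legs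
`a` (up), `1` (down), `b` (right), which maps `(t,1)` onto the right wall of the upper leg and `(-∞,0)`
onto the walls between the lower and the right end: the cross-ratio is `1 - t`. -/
theorem result :
    (∃ V : ℕ → ℕ → ℕ → ℝ,
      (∀ i L h : ℕ, Odd i → Odd L → Odd h → 3 ≤ i → 3 ≤ h →
        avr (fun i' => avr (fun h' => V i' L h') h) i = V i L h) ∧
      ∃ c C : ℝ, 0 < c ∧
        (∀ i L h M : ℕ, Odd i → Odd L → Odd h →
          |perc half (junction i L h M) (Crossing i L h) - V i L h| ≤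
            C * Real.exp (-(c * (M / (i + L + h))))) ∧
        ∀ a b : ℝ, 0 < a → 0 < b → ∀ ε : ℝ, 0 < ε →
          ∃ δ : ℝ, 0 < δ ∧ ∃ L₀ : ℕ, ∀ i L h M : ℕ, L₀ ≤ L →
            |(i : ℝ) / L - a| < δ → |(h : ℝ) / L - b| < δ →
            |perc half (junction i L h M) (Crossing i L h) - cardyF (1 - tip a b)| ≤
              ε + C * Real.exp (-(c * (M / (i + L + h))))) ∧
    ∀ a b : ℝ, 0 < a → 0 < b → ∃ φ : ℂ → ℂ, IsJunctionMap a b (tip a b) φ := by
  constructor
  · obtain ⟨c, C, hc, h1, h2⟩ := JN.junction_main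
    refine ⟨JN.Vx, fun i L h hi hL hh hi3 hh3 => JN.Vx_har hi hL hh hi3 hh3, c, C, hc,
      fun i L h M hi hL hh => ?_, fun a b ha hb ε hε => ?_⟩
    · rw [crossing_eq]
      exact h1 i L h M hi hL hh
    · obtain ⟨δ, hδ, L₀, h3⟩ := h2 a b ha hb ε hε
      refine ⟨δ, hδ, L₀, fun i L h M hL hi hh => ?_⟩
      rw [crossing_eq]
      exact h3 i L h M hL hi hh
  · intro a b ha hb
    obtain ⟨φ, h⟩ := Pool.Agent.Helper15.J.exists_isJunctionMap' ha hb
    exact ⟨φ, h.holomorphic, h.bijective, h.continuous, h.lower_right, h.lower_right_bij,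
      h.lower_corner, h.right_lower, h.right_lower_bij, h.right_upper, h.right_upper_bij,
      h.upper_corner, h.upper_right, h.upper_right_bij, h.left_wall, h.left_wall_bij⟩

end Pool.Agent.Results.MP_35f495_pr.JunctionCardy
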