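import Mathlib

/-!
# The variance-profile deterministic equivalent: definitions
-/

open MeasureTheory Matrix

namespace Pool.Agent.Helper53.VarProfile

variable {n : ℕ}

/-- The digraph on `[n]` with an edge `i → j` whenever `σ_ij > 0` is strongly connected: for all
`i`, `j` there is a directed path (possibly of length `0`) from `i` to `j`. -/
def IsIrred (A : Matrix (Fin n) (Fin n) ℝ) : Prop :=
  ∀ i j : Fin n, Relation.ReflTransGen (fun k l => 0 < A k l) i j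

/-- The variance matrix `V = (1/n) (σ_ij ^ 2)`. -/
noncomputable def varMatrix (A : Matrix (Fin n) (Fin n) ℝ) : Matrix (Fin n) (Fin n) ℝ :=
  Matrix.of fun i j => (1 / (n : ℝ)) * A i j ^ 2

/-- The spectral radius `ρ(V)`: the largest modulus of a complex eigenvalue of `V`. -/
noncomputable def rho (V : Matrix (Fin n) (Fin n) ℝ) : ℝ :=
  (spectralRadius ℂ (V.map ((↑) : ℝ → ℂ))).toReal

/-- `(q, q')` is a solution of the Master Equations at `s`: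
`q_i = (Vᵀ q)_i / (s^2 + (V q')_i (Vᵀ q)_i)`, `q'_i = (V q')_i / (s^2 + (V q')_i (Vᵀ q)_i)`,
`∑ q_i = ∑ q'_i`, with `q, q' ≥ 0` entrywise. -/
def IsSolution (V : Matrix (Fin n) (Fin n) ℝ) (s : ℝ) (q q' : Fin n → ℝ) : Prop :=
  (∀ i, 0 ≤ q i) ∧ (∀ i, 0 ≤ q' i) ∧
  (∀ i, q i = (Vᵀ *ᵥ q) i / (s ^ 2 + (V *ᵥ q') i * (Vᵀ *ᵥ q) i)) ∧
  (∀ i, q' i = (V *ᵥ q') i / (s ^ 2 + (V *ᵥ q') i * (Vᵀ *ᵥ q) i)) ∧
  ∑ i, q i = ∑ i, q' i

/-- `(q, q')` is the selected solution `(q(s), q~(s))`: it solves the Master Equations, it is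
zero for `s ≥ √ρ(V)`, and it is nonzero for `s < √ρ(V)`. -/
def IsSelected (V : Matrix (Fin n) (Fin n) ℝ) (s : ℝ) (q q' : Fin n → ℝ) : Prop :=
  IsSolution V s q q' ∧ (Real.sqrt (rho V) ≤ s → q = 0 ∧ q' = 0) ∧
    (s < Real.sqrt (rho V) → ¬ (q = 0 ∧ q' = 0))

/-- `μ` is the deterministic equivalent `μ_A`: a radially symmetric (rotation invariant)
probability measure on `ℂ` such that for every `s > 0`,
`μ {|z| ≤ s} = F_A(s) = 1 - (1/n) ⟨q(s), V q~(s)⟩`. -/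
def IsDetEquiv (A : Matrix (Fin n) (Fin n) ℝ) (μ : Measure ℂ) : Prop :=
  IsProbabilityMeasure μ ∧ (∀ c : ℂ, ‖c‖ = 1 → μ.map (fun z => c * z) = μ) ∧
    ∀ s : ℝ, 0 < s → ∃ q q' : Fin n → ℝ, IsSelected (varMatrix A) s q q' ∧
      μ.real {z : ℂ | ‖z‖ ≤ s} = 1 - (1 / (n : ℝ)) * (q ⬝ᵥ (varMatrix A *ᵥ q'))

end Pool.Agent.Helper53.VarProfile
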