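import Mathlib
import Pool.Agent.Helper53.VarProfileDefs

/-!
# The variance-profile deterministic equivalent: strict monotonicity and the support

The key point is an entropy inequality.  A positive solution `(q, q')` of the Master Equations at
`s` gives a matrix `K_ij = q_i V_ij q'_j` whose `i`-th row sum and `i`-th column sum are both
`w_i ∈ (0,1)`, with `q_i q'_i s² = w_i (1 - w_i)`; it is the unique maximiser of a strictly
concave functional.  Comparing two values of `s` gives strict monotonicity of `∑ w_i`.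
-/

open MeasureTheory Matrix

namespace Pool.Agent.Helper53.VarProfile

/-! ### The entropy inequality -/

section Entropy

variable {n : ℕ}

/-- The scaling data attached to a positive solution. -/
structure Scaling (V : Fin n → Fin n → ℝ) (s : ℝ) (q q' w : Fin n → ℝ) : Prop where
  hq : ∀ i, 0 < q i
  hq' : ∀ i, 0 < q' i
  hw : ∀ i, 0 < w i
  hw1 : ∀ i, w i < 1
  row : ∀ i, ∑ j, q i * V i j * q' j = w i
  col : ∀ j, ∑ i, q i * V i j * q' j = w j
  prod : ∀ i, q i * q' i * s ^ 2 = w i * (1 - w i)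

/-- `x log (x/y) ≥ x - y`. -/
theorem ent_nonneg {x y : ℝ} (hx : 0 < x) (hy : 0 < y) :
    0 ≤ x * (Real.log x - Real.log y) - (x - y) := by
  have h := Real.one_sub_inv_le_log_of_pos (div_pos hx hy)
  rw [Real.log_div hx.ne' hy.ne', inv_div] at h
  have h2 : x * (1 - y / x) ≤ x * (Real.log x - Real.log y) :=
    mul_le_mul_of_nonneg_left h hx.le
  have h3 : x * (1 - y / x) = x - y := by field_simp
  linarith

theorem ent_pos {x y : ℝ} (hx : 0 < x) (hy : 0 < y) (hxy : x ≠ y) :
    0 < x * (Real.log x - Real.log y) - (x - y) := by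
  have h := Real.log_lt_sub_one_of_pos (div_pos hy hx) (by
    intro h
    rw [div_eq_one_iff_eq hx.ne'] at h
    exact hxy h.symm)
  rw [Real.log_div hy.ne' hx.ne'] at h
  have h2 : x * (Real.log y - Real.log x) < x * (y / x - 1) := mul_lt_mul_of_pos_left h hx
  have h3 : x * (y / x - 1) = y - x := by field_simp
  linarith

variable {V : Fin n → Fin n → ℝ} {s t : ℝ} {q q' w p p' v : Fin n → ℝ}

/-- The entropy identity. -/
theorem gap_eq (hs : 0 < s) (ht : 0 < t) (h : Scaling V s q q' w) (k : Scaling V t p p' v) :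
    ∑ i, ∑ j, V i j * ((p i * p' j) * (Real.log (p i * p' j / v i) - Real.log (q i * q' j / w i)) -
        (p i * p' j - q i * q' j / w i * v i)) +
      ∑ i, ((1 - v i) * (Real.log (1 - v i) - Real.log (1 - w i)) - ((1 - v i) - (1 - w i))) =
    ∑ i, (Real.log (1 - v i) - Real.log (1 - w i)) + ∑ i, (v i - w i) -
      (Real.log (t ^ 2) - Real.log (s ^ 2)) * ∑ i, v i := by
  have e1 : ∀ i j, V i j * ((p i * p' j) *
      (Real.log (p i * p' j / v i) - Real.log (q i * q' j / w i)) -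
        (p i * p' j - q i * q' j / w i * v i)) =
      (p i * V i j * p' j) * (Real.log (p i) - Real.log (v i) - Real.log (q i) + Real.log (w i)) +
      (p i * V i j * p' j) * (Real.log (p' j) - Real.log (q' j)) -
      (p i * V i j * p' j) + (q i * V i j * q' j) * (v i / w i) := by
    intro i j
    rw [Real.log_div (mul_pos (k.hq i) (k.hq' j)).ne' (k.hw i).ne',
      Real.log_div (mul_pos (h.hq i) (h.hq' j)).ne' (h.hw i).ne',
      Real.log_mul (k.hq i).ne' (k.hq' j).ne', Real.log_mul (h.hq i).ne' (h.hq' j).ne']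
    have := (h.hw i).ne'
    field_simp
    ring
  have e2 : ∑ i, ∑ j, V i j * ((p i * p' j) *
      (Real.log (p i * p' j / v i) - Real.log (q i * q' j / w i)) -
        (p i * p' j - q i * q' j / w i * v i)) =
      ∑ i, v i * (Real.log (p i) - Real.log (v i) - Real.log (q i) + Real.log (w i)) +
      ∑ i, v i * (Real.log (p' i) - Real.log (q' i)) := by
    simp only [e1]
    simp only [Finset.sum_add_distrib, Finset.sum_sub_distrib]
    simp only [← Finset.sum_mul, k.row, h.row]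
    have e3 : ∑ i, ∑ j, p i * V i j * p' j * (Real.log (p' j) - Real.log (q' j)) =
        ∑ j, v j * (Real.log (p' j) - Real.log (q' j)) := by
      rw [Finset.sum_comm]
      refine Finset.sum_congr rfl fun j _ => ?_
      rw [← Finset.sum_mul, k.col j]
    have e4 : ∑ i, w i * (v i / w i) = ∑ i, v i := by
      refine Finset.sum_congr rfl fun i _ => ?_
      have := (h.hw i).ne'
      field_simp
    rw [e3, e4]
    ring
  rw [e2, ← Finset.sum_add_distrib, ← Finset.sum_add_distrib, Finset.mul_sum,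
    ← Finset.sum_add_distrib, ← Finset.sum_sub_distrib]
  refine Finset.sum_congr rfl fun i _ => ?_
  have h1 : Real.log (q i) + Real.log (q' i) + Real.log (s ^ 2) =
      Real.log (w i) + Real.log (1 - w i) := by
    rw [← Real.log_mul (h.hq i).ne' (h.hq' i).ne',
      ← Real.log_mul (mul_pos (h.hq i) (h.hq' i)).ne' (pow_pos hs 2).ne', h.prod i,
      Real.log_mul (h.hw i).ne' (sub_pos.2 (h.hw1 i)).ne']
  have k1 : Real.log (p i) + Real.log (p' i) + Real.log (t ^ 2) =
      Real.log (v i) + Real.log (1 - v i) := by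
    rw [← Real.log_mul (k.hq i).ne' (k.hq' i).ne',
      ← Real.log_mul (mul_pos (k.hq i) (k.hq' i)).ne' (pow_pos ht 2).ne', k.prod i,
      Real.log_mul (k.hw i).ne' (sub_pos.2 (k.hw1 i)).ne']
  have h2 : Real.log (q i) = Real.log (w i) + Real.log (1 - w i) - Real.log (q' i) -
      Real.log (s ^ 2) := by linarith
  have k2 : Real.log (p i) = Real.log (v i) + Real.log (1 - v i) - Real.log (p' i) -
      Real.log (t ^ 2) := by linarith
  rw [h2, k2]
  ring

theorem gap_terms_nonneg (hV : ∀ i j, 0 ≤ V i j) (h : Scaling V s q q' w)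
    (k : Scaling V t p p' v) (i j : Fin n) :
    0 ≤ V i j * ((p i * p' j) * (Real.log (p i * p' j / v i) - Real.log (q i * q' j / w i)) -
        (p i * p' j - q i * q' j / w i * v i)) := by
  refine mul_nonneg (hV i j) ?_
  have hx : 0 < p i * p' j / v i := div_pos (mul_pos (k.hq i) (k.hq' j)) (k.hw i)
  have hy : 0 < q i * q' j / w i := div_pos (mul_pos (h.hq i) (h.hq' j)) (h.hw i)
  have h1 := mul_nonneg (k.hw i).le (ent_nonneg hx hy)
  have h2 : v i * (p i * p' j / v i * (Real.log (p i * p' j / v i) - Real.log (q i * q' j / w i)) -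
      (p i * p' j / v i - q i * q' j / w i)) =
      (p i * p' j) * (Real.log (p i * p' j / v i) - Real.log (q i * q' j / w i)) -
        (p i * p' j - q i * q' j / w i * v i) := by
    have := (k.hw i).ne'
    field_simp
  rwa [h2] at h1

theorem gap_terms_pos (h : Scaling V s q q' w)
    (k : Scaling V t p p' v) (i j : Fin n) (hVij : 0 < V i j)
    (hne : p i * p' j / v i ≠ q i * q' j / w i) :
    0 < V i j * ((p i * p' j) * (Real.log (p i * p' j / v i) - Real.log (q i * q' j / w i)) -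
        (p i * p' j - q i * q' j / w i * v i)) := by
  refine mul_pos hVij ?_
  have hx : 0 < p i * p' j / v i := div_pos (mul_pos (k.hq i) (k.hq' j)) (k.hw i)
  have hy : 0 < q i * q' j / w i := div_pos (mul_pos (h.hq i) (h.hq' j)) (h.hw i)
  have h1 := mul_pos (k.hw i) (ent_pos hx hy hne)
  have h2 : v i * (p i * p' j / v i * (Real.log (p i * p' j / v i) - Real.log (q i * q' j / w i)) -
      (p i * p' j / v i - q i * q' j / w i)) =
      (p i * p' j) * (Real.log (p i * p' j / v i) - Real.log (q i * q' j / w i)) -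
        (p i * p' j - q i * q' j / w i * v i) := by
    have := (k.hw i).ne'
    field_simp
  rwa [h2] at h1

/-- The gap is nonnegative. -/
theorem gap_nonneg (hV : ∀ i j, 0 ≤ V i j) (hs : 0 < s) (ht : 0 < t) (h : Scaling V s q q' w)
    (k : Scaling V t p p' v) :
    0 ≤ ∑ i, (Real.log (1 - v i) - Real.log (1 - w i)) + ∑ i, (v i - w i) -
      (Real.log (t ^ 2) - Real.log (s ^ 2)) * ∑ i, v i := by
  rw [← gap_eq hs ht h k]
  refine add_nonneg (Finset.sum_nonneg fun i _ => Finset.sum_nonneg fun j _ =>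
    gap_terms_nonneg hV h k i j) (Finset.sum_nonneg fun i _ => ?_)
  exact ent_nonneg (sub_pos.2 (k.hw1 i)) (sub_pos.2 (h.hw1 i))

/-- If the gap is zero then the two scalings coincide. -/
theorem eq_of_gap_le (hV : ∀ i j, 0 ≤ V i j) (hs : 0 < s) (ht : 0 < t) (h : Scaling V s q q' w)
    (k : Scaling V t p p' v)
    (h0 : ∑ i, (Real.log (1 - v i) - Real.log (1 - w i)) + ∑ i, (v i - w i) -
      (Real.log (t ^ 2) - Real.log (s ^ 2)) * ∑ i, v i ≤ 0) :
    (∀ i, v i = w i) ∧ ∀ i j, 0 < V i j → p i * p' j = q i * q' j := by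
  rw [← gap_eq hs ht h k] at h0
  have hA : 0 ≤ ∑ i, ∑ j, V i j * ((p i * p' j) *
      (Real.log (p i * p' j / v i) - Real.log (q i * q' j / w i)) -
        (p i * p' j - q i * q' j / w i * v i)) :=
    Finset.sum_nonneg fun i _ => Finset.sum_nonneg fun j _ => gap_terms_nonneg hV h k i j
  have hB' : ∀ i, 0 ≤ (1 - v i) * (Real.log (1 - v i) - Real.log (1 - w i)) -
      ((1 - v i) - (1 - w i)) :=
    fun i => ent_nonneg (sub_pos.2 (k.hw1 i)) (sub_pos.2 (h.hw1 i))
  have hB : 0 ≤ ∑ i, ((1 - v i) * (Real.log (1 - v i) - Real.log (1 - w i)) -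
      ((1 - v i) - (1 - w i))) := Finset.sum_nonneg fun i _ => hB' i
  have hA0 := le_antisymm (by linarith) hA
  have hB0 := le_antisymm (by linarith) hB
  have hvw : ∀ i, v i = w i := by
    intro i
    by_contra hne
    have h1 : (1 - v i) * (Real.log (1 - v i) - Real.log (1 - w i)) -
      ((1 - v i) - (1 - w i)) = 0 :=
      (Finset.sum_eq_zero_iff_of_nonneg fun i _ => hB' i).1 hB0 i (Finset.mem_univ i)
    have h2 := ent_pos (sub_pos.2 (k.hw1 i)) (sub_pos.2 (h.hw1 i)) (by
      intro h; exact hne (by linarith))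
    linarith
  refine ⟨hvw, fun i j hVij => ?_⟩
  by_contra hne
  have h1 := (Finset.sum_eq_zero_iff_of_nonneg fun i _ => Finset.sum_nonneg fun j _ =>
    gap_terms_nonneg hV h k i j).1 hA0 i (Finset.mem_univ i)
  have h2 := (Finset.sum_eq_zero_iff_of_nonneg fun j _ =>
    gap_terms_nonneg hV h k i j).1 h1 j (Finset.mem_univ j)
  have h3 := gap_terms_pos h k i j hVij (by
    rw [hvw i]
    intro h'
    rw [div_left_inj' (h.hw i).ne'] at h'
    exact hne h')
  linarith

/-- **Strict monotonicity.** -/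
theorem sum_lt [NeZero n] (hV : ∀ i j, 0 ≤ V i j) (hs : 0 < s) (hst : s < t)
    (h : Scaling V s q q' w) (k : Scaling V t p p' v) : ∑ i, v i < ∑ i, w i := by
  have ht : 0 < t := hs.trans hst
  by_contra hcon
  push Not at hcon
  have g1 := gap_nonneg hV hs ht h k
  have g2 := gap_nonneg hV ht hs k h
  have hlog : 0 < Real.log (t ^ 2) - Real.log (s ^ 2) :=
    sub_pos.2 (Real.log_lt_log (pow_pos hs 2) (pow_lt_pow_left₀ hst hs.le two_ne_zero))
  simp only [Finset.sum_sub_distrib] at g1 g2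
  have hprod : 0 ≤ (Real.log (t ^ 2) - Real.log (s ^ 2)) * (∑ i, v i - ∑ i, w i) :=
    mul_nonneg hlog.le (sub_nonneg.2 hcon)
  obtain ⟨hvw, hVV⟩ := eq_of_gap_le hV hs ht h k (by
    simp only [Finset.sum_sub_distrib]
    nlinarith)
  -- the ratio `r = p / q` satisfies `r j = κ r i` along edges, `κ = s²/t² < 1`
  obtain ⟨j, -, hj⟩ := Finset.exists_max_image Finset.univ (fun i => p i / q i)
    ⟨(0 : Fin n), Finset.mem_univ _⟩
  have hcol := h.col j
  have : ∃ i, 0 < V i j := by
    by_contra hno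
    push Not at hno
    have hz : ∀ i, V i j = 0 := fun i => le_antisymm (hno i) (hV i j)
    have : w j = 0 := by rw [← hcol]; simp [hz]
    exact (h.hw j).ne' this
  obtain ⟨i, hi⟩ := this
  have e1 := hVV i j hi
  have e2 := h.prod j
  have e3 := k.prod j
  rw [hvw j, ← e2] at e3
  -- p_j p'_j t² = q_j q'_j s²
  have hqi := h.hq i
  have hqj := h.hq j
  have hpi := k.hq i
  have hpj := k.hq j
  have hq'j := h.hq' j
  have hp'j := k.hq' j
  have hle : p i / q i ≤ p j / q j := hj i (Finset.mem_univ i)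
  rw [div_le_div_iff₀ hqi hqj] at hle
  -- p_i q_j ≤ p_j q_i ; multiply by p'_j : q_i q'_j q_j ≤ p_j p'_j q_i
  have h4 : p i * q j * p' j ≤ p j * q i * p' j := mul_le_mul_of_nonneg_right hle hp'j.le
  have h5 : q i * (q j * q' j) ≤ q i * (p j * p' j) := by
    calc q i * (q j * q' j) = (q i * q' j) * q j := by ring
      _ = (p i * p' j) * q j := by rw [e1]
      _ = p i * q j * p' j := by ring
      _ ≤ p j * q i * p' j := h4
      _ = q i * (p j * p' j) := by ring
  have h6 : q j * q' j ≤ p j * p' j := le_of_mul_le_mul_left h5 hqi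
  have h7 : s ^ 2 < t ^ 2 := pow_lt_pow_left₀ hst hs.le two_ne_zero
  have h8 : q j * q' j * s ^ 2 < p j * p' j * t ^ 2 := by
    have hpp : 0 < p j * p' j := mul_pos hpj hp'j
    have hqq : 0 < q j * q' j := mul_pos hqj hq'j
    nlinarith
  linarith

end Entropy

/-! ### From solutions of the Master Equations to scalings -/

section Solutions

variable {n : ℕ} {A V : Matrix (Fin n) (Fin n) ℝ} {s : ℝ} {q q' : Fin n → ℝ}

theorem mulVec_nonneg (hV : ∀ i j, 0 ≤ V i j) (hq : ∀ i, 0 ≤ q i) (i : Fin n) :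
    0 ≤ (V *ᵥ q) i := by
  simp only [Matrix.mulVec, dotProduct]
  exact Finset.sum_nonneg fun j _ => mul_nonneg (hV i j) (hq j)

theorem mulVec_pos (hV : ∀ i j, 0 ≤ V i j) (hq : ∀ i, 0 ≤ q i) {i j : Fin n} (hij : 0 < V i j)
    (hj : 0 < q j) : 0 < (V *ᵥ q) i :=
  lt_of_lt_of_le (mul_pos hij hj)
    (Finset.single_le_sum (f := fun j => V i j * q j) (fun j _ => mul_nonneg (hV i j) (hq j))
      (Finset.mem_univ j))

theorem varMatrix_nonneg (i j : Fin n) : 0 ≤ varMatrix A i j := by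
  unfold varMatrix
  rw [Matrix.of_apply]
  positivity

theorem varMatrix_pos [NeZero n] {i j : Fin n} (h : 0 < A i j) : 0 < varMatrix A i j := by
  unfold varMatrix
  rw [Matrix.of_apply]
  have : (0 : ℝ) < n := Nat.cast_pos.2 (NeZero.pos n)
  positivity

/-- A nonzero solution is entrywise positive. -/
theorem solution_pos [NeZero n] (hA : IsIrred A) (hs : 0 < s)
    (h : IsSolution (varMatrix A) s q q') (hne : ¬ (q = 0 ∧ q' = 0)) :
    (∀ i, 0 < q i) ∧ ∀ i, 0 < q' i := by
  obtain ⟨hq, hq', e, e', htr⟩ := h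
  have hV : ∀ i j, 0 ≤ varMatrix A i j := varMatrix_nonneg
  have hVT : ∀ i j, 0 ≤ (varMatrix A)ᵀ i j := fun i j => hV j i
  have hden : ∀ i, 0 < s ^ 2 + (varMatrix A *ᵥ q') i * ((varMatrix A)ᵀ *ᵥ q) i := fun i =>
    add_pos_of_pos_of_nonneg (pow_pos hs 2)
      (mul_nonneg (mulVec_nonneg hV hq' i) (mulVec_nonneg hVT hq i))
  have hq0 : ∃ j, 0 < q j := by
    by_contra hno
    push Not at hno
    have hz : q = 0 := funext fun i => le_antisymm (hno i) (hq i)
    have hs' : ∑ i, q' i = 0 := by rw [← htr, hz]; simp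
    have hz' : q' = 0 := funext fun i =>
      (Finset.sum_eq_zero_iff_of_nonneg fun i _ => hq' i).1 hs' i (Finset.mem_univ i)
    exact hne ⟨hz, hz'⟩
  have hq0' : ∃ j, 0 < q' j := by
    by_contra hno
    push Not at hno
    have hz : q' = 0 := funext fun i => le_antisymm (hno i) (hq' i)
    have hs' : ∑ i, q i = 0 := by rw [htr, hz]; simp
    have hz' : q = 0 := funext fun i =>
      (Finset.sum_eq_zero_iff_of_nonneg fun i _ => hq i).1 hs' i (Finset.mem_univ i)
    exact hne ⟨hz', hz⟩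
  constructor
  · intro i
    obtain ⟨j, hj⟩ := hq0
    have hpath := hA j i
    induction hpath with
    | refl => exact hj
    | @tail b c _ hbc ih =>
      rw [e c]
      exact div_pos (mulVec_pos hVT hq (i := c) (j := b) (varMatrix_pos hbc) ih) (hden c)
  · intro i
    obtain ⟨j, hj⟩ := hq0'
    have hpath := hA i j
    induction hpath using Relation.ReflTransGen.head_induction_on with
    | refl => exact hj
    | @head b c hbc _ ih =>
      rw [e' b]
      exact div_pos (mulVec_pos hV hq' (i := b) (j := c) (varMatrix_pos hbc) ih) (hden b)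

/-- The scaling attached to a positive solution. -/
theorem scaling_of_solution (hV : ∀ i j, 0 ≤ V i j) (hs : 0 < s) (h : IsSolution V s q q')
    (hq : ∀ i, 0 < q i) (hq' : ∀ i, 0 < q' i) :
    Scaling V s q q' (fun i => q i * (V *ᵥ q') i) := by
  obtain ⟨-, -, e, e', -⟩ := h
  have ha : ∀ i, 0 < (V *ᵥ q') i := by
    intro i
    have h0 := mulVec_nonneg hV (fun i => (hq' i).le) i
    rcases h0.lt_or_eq with h | h
    · exact h
    · have := hq' i
      rw [e' i, ← h, zero_div] at this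
      exact absurd this (lt_irrefl _)
  have hb : ∀ i, 0 < (Vᵀ *ᵥ q) i := by
    intro i
    have h0 := mulVec_nonneg (V := Vᵀ) (fun i j => hV j i) (fun i => (hq i).le) i
    rcases h0.lt_or_eq with h | h
    · exact h
    · have := hq i
      rw [e i, ← h, zero_div] at this
      exact absurd this (lt_irrefl _)
  have hden : ∀ i, 0 < s ^ 2 + (V *ᵥ q') i * (Vᵀ *ᵥ q) i := fun i =>
    add_pos (pow_pos hs 2) (mul_pos (ha i) (hb i))
  have hw : ∀ i, q i * (V *ᵥ q') i =
      (V *ᵥ q') i * (Vᵀ *ᵥ q) i / (s ^ 2 + (V *ᵥ q') i * (Vᵀ *ᵥ q) i) := by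
    intro i
    conv_lhs => rw [e i]
    ring
  refine ⟨hq, hq', fun i => mul_pos (hq i) (ha i), fun i => ?_, fun i => ?_, fun j => ?_,
    fun i => ?_⟩
  · rw [hw i, div_lt_one (hden i)]
    linarith [pow_pos hs 2]
  · simp only [Matrix.mulVec, dotProduct, Finset.mul_sum]
    exact Finset.sum_congr rfl fun j _ => by ring
  · have h1 : ∑ i, q i * V i j * q' j = (Vᵀ *ᵥ q) j * q' j := by
      simp only [Matrix.mulVec, dotProduct, Finset.sum_mul, Matrix.transpose_apply]
      exact Finset.sum_congr rfl fun i _ => by ring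
    rw [h1, hw j]
    conv_lhs => rw [e' j]
    ring
  · rw [hw i]
    have h1 : q i * q' i = (Vᵀ *ᵥ q) i / (s ^ 2 + (V *ᵥ q') i * (Vᵀ *ᵥ q) i) *
        ((V *ᵥ q') i / (s ^ 2 + (V *ᵥ q') i * (Vᵀ *ᵥ q) i)) := by
      conv_lhs => rw [e i, e' i]
    rw [h1]
    have h2 : 1 - (V *ᵥ q') i * (Vᵀ *ᵥ q) i / (s ^ 2 + (V *ᵥ q') i * (Vᵀ *ᵥ q) i) =
        s ^ 2 / (s ^ 2 + (V *ᵥ q') i * (Vᵀ *ᵥ q) i) := by
      rw [eq_div_iff (hden i).ne', sub_mul, div_mul_cancel₀ _ (hden i).ne']
      ring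
    rw [h2]
    ring

/-- The distribution function is strictly increasing on `(0, √ρ)`. -/
theorem bracket_lt [NeZero n] (hA : IsIrred A) {t : ℝ} (hs : 0 < s) (hst : s < t)
    {p p' : Fin n → ℝ}
    (h : IsSolution (varMatrix A) s q q') (hne : ¬ (q = 0 ∧ q' = 0))
    (k : IsSolution (varMatrix A) t p p') (kne : ¬ (p = 0 ∧ p' = 0)) :
    p ⬝ᵥ (varMatrix A *ᵥ p') < q ⬝ᵥ (varMatrix A *ᵥ q') := by
  obtain ⟨hq, hq'⟩ := solution_pos hA hs h hne
  obtain ⟨hp, hp'⟩ := solution_pos hA (hs.trans hst) k kne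
  exact sum_lt varMatrix_nonneg hs hst (scaling_of_solution varMatrix_nonneg hs h hq hq')
    (scaling_of_solution varMatrix_nonneg (hs.trans hst) k hp hp')

end Solutions

/-! ### The support -/

section Support

variable {n : ℕ} {A : Matrix (Fin n) (Fin n) ℝ} {μ : Measure ℂ}

theorem rot_notMem_support (hrot : ∀ c : ℂ, ‖c‖ = 1 → μ.map (fun z => c * z) = μ) {z c : ℂ}
    (hc : ‖c‖ = 1) (hz : z ∉ μ.support) : c * z ∉ μ.support := by
  rw [Measure.notMem_support_iff_exists] at hz ⊢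
  obtain ⟨U, hU, hU0⟩ := hz
  obtain ⟨O, hOU, hO, hzO⟩ := mem_nhds_iff.1 hU
  have hc0 : c ≠ 0 := by
    rintro rfl
    simp at hc
  refine ⟨(fun w => c⁻¹ * w) ⁻¹' O, ?_, ?_⟩
  · refine (hO.preimage (continuous_const_mul c⁻¹)).mem_nhds ?_
    change c⁻¹ * (c * z) ∈ O
    rwa [inv_mul_cancel_left₀ hc0]
  · have h1 : μ.map (fun w => c⁻¹ * w) O = μ ((fun w => c⁻¹ * w) ⁻¹' O) :=
      Measure.map_apply (by fun_prop) hO.measurableSet
    rw [← h1, hrot c⁻¹ (by rw [norm_inv, hc, inv_one])]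
    exact measure_mono_null hOU hU0

/-- The support of `μ_A` is the closed disk of radius `√ρ(V)`. -/
theorem support_eq [NeZero n] (hA : IsIrred A) (hμ : IsDetEquiv A μ) :
    μ.support = Metric.closedBall 0 (Real.sqrt (rho (varMatrix A))) := by
  obtain ⟨hprob, hrot, hF⟩ := hμ
  set R := Real.sqrt (rho (varMatrix A)) with hR
  have hR0 : 0 ≤ R := Real.sqrt_nonneg _
  -- the measure lives on the closed ball
  have hfull : ∀ s, 0 < s → R ≤ s → μ {z : ℂ | ‖z‖ ≤ s}ᶜ = 0 := by
    intro s hs hRs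
    obtain ⟨q, q', hsel, hval⟩ := hF s hs
    obtain ⟨hq, hq'⟩ := hsel.2.1 hRs
    rw [hq, zero_dotProduct, mul_zero, sub_zero] at hval
    have hmeas : MeasurableSet {z : ℂ | ‖z‖ ≤ s} :=
      (isClosed_le continuous_norm continuous_const).measurableSet
    rw [prob_compl_eq_zero_iff hmeas]
    rwa [Measure.real, ENNReal.toReal_eq_one_iff] at hval
  have hsub : μ.support ⊆ Metric.closedBall 0 R := by
    intro z hz
    rw [mem_closedBall_zero_iff]
    by_contra hlt
    push Not at hlt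
    obtain ⟨s, hRs, hsz⟩ := exists_between hlt
    have hs : 0 < s := lt_of_le_of_lt hR0 hRs
    refine (Measure.mem_support_iff_forall z).1 hz ({z : ℂ | ‖z‖ ≤ s}ᶜ) ?_ |>.ne'
      (hfull s hs hRs.le)
    refine (isClosed_le continuous_norm continuous_const).isOpen_compl.mem_nhds ?_
    simpa using hsz
  refine Set.Subset.antisymm hsub ?_
  -- the support contains the punctured open disk
  have hint : ∀ z : ℂ, 0 < ‖z‖ → ‖z‖ < R → z ∈ μ.support := by
    intro z₀ hz₀ hz₀R
    by_contra hz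
    -- a small ball around `z₀` misses the support
    obtain ⟨δ, hδ, hball⟩ := Metric.isOpen_iff.1 (Measure.isOpen_compl_support (μ := μ)) z₀ hz
    obtain ⟨t, hrt, ht⟩ := exists_between (lt_min hz₀R (lt_add_of_pos_right ‖z₀‖ hδ))
    have htR : t < R := ht.trans_le (min_le_left _ _)
    have htδ : t < ‖z₀‖ + δ := ht.trans_le (min_le_right _ _)
    have hann : {z : ℂ | ‖z₀‖ < ‖z‖ ∧ ‖z‖ ≤ t} ⊆ μ.supportᶜ := by
      rintro z ⟨h1, h2⟩
      have hz0 : 0 < ‖z‖ := hz₀.trans h1
      have hmem : ((‖z‖ / ‖z₀‖ : ℝ) : ℂ) * z₀ ∉ μ.support := by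
        apply hball
        rw [mem_ball_iff_norm]
        have h3 : ((‖z‖ / ‖z₀‖ : ℝ) : ℂ) * z₀ - z₀ = ((‖z‖ / ‖z₀‖ - 1 : ℝ) : ℂ) * z₀ := by
          push_cast; ring
        rw [h3, norm_mul, Complex.norm_real, Real.norm_eq_abs]
        have h4 : 0 ≤ ‖z‖ / ‖z₀‖ - 1 := by
          rw [sub_nonneg, le_div_iff₀ hz₀]
          linarith
        rw [abs_of_nonneg h4, sub_mul, div_mul_cancel₀ _ hz₀.ne']
        linarith
      have hw0 : ((‖z‖ / ‖z₀‖ : ℝ) : ℂ) * z₀ ≠ 0 := by
        rw [← norm_ne_zero_iff, norm_mul, Complex.norm_real, Real.norm_eq_abs,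
          abs_of_pos (div_pos hz0 hz₀), div_mul_cancel₀ _ hz₀.ne']
        exact hz0.ne'
      have hwn : ‖((‖z‖ / ‖z₀‖ : ℝ) : ℂ) * z₀‖ = ‖z‖ := by
        rw [norm_mul, Complex.norm_real, Real.norm_eq_abs,
          abs_of_pos (div_pos hz0 hz₀), div_mul_cancel₀ _ hz₀.ne']
      have h5 := rot_notMem_support hrot (c := z / (((‖z‖ / ‖z₀‖ : ℝ) : ℂ) * z₀))
        (by rw [norm_div, hwn, div_self hz0.ne']) hmem
      rwa [div_mul_cancel₀ _ hw0] at h5
    have hnull : μ {z : ℂ | ‖z₀‖ < ‖z‖ ∧ ‖z‖ ≤ t} = 0 :=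
      measure_mono_null hann (by
        have := Measure.support_mem_ae (μ := μ)
        rwa [mem_ae_iff] at this)
    obtain ⟨q, q', hsel, hval⟩ := hF ‖z₀‖ hz₀
    obtain ⟨p, p', hsel', hval'⟩ := hF t (hz₀.trans hrt)
    have hlt := bracket_lt hA hz₀ hrt hsel.1 (hsel.2.2 hz₀R) hsel'.1 (hsel'.2.2 htR)
    have hle : μ.real {z : ℂ | ‖z‖ ≤ t} ≤ μ.real {z : ℂ | ‖z‖ ≤ ‖z₀‖} := by
      have h1 : {z : ℂ | ‖z‖ ≤ t} ⊆ {z : ℂ | ‖z‖ ≤ ‖z₀‖} ∪ {z : ℂ | ‖z₀‖ < ‖z‖ ∧ ‖z‖ ≤ t} := by
        intro z hz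
        by_cases h : ‖z‖ ≤ ‖z₀‖
        · exact Or.inl h
        · exact Or.inr ⟨not_le.1 h, hz⟩
      have h2 : μ {z : ℂ | ‖z‖ ≤ t} ≤ μ {z : ℂ | ‖z‖ ≤ ‖z₀‖} := by
        calc μ {z : ℂ | ‖z‖ ≤ t} ≤ μ ({z : ℂ | ‖z‖ ≤ ‖z₀‖} ∪ {z : ℂ | ‖z₀‖ < ‖z‖ ∧ ‖z‖ ≤ t}) :=
              measure_mono h1
          _ ≤ μ {z : ℂ | ‖z‖ ≤ ‖z₀‖} + μ {z : ℂ | ‖z₀‖ < ‖z‖ ∧ ‖z‖ ≤ t} := measure_union_le _ _
          _ = μ {z : ℂ | ‖z‖ ≤ ‖z₀‖} := by rw [hnull, add_zero]
      exact ENNReal.toReal_mono (measure_ne_top μ _) h2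
    rw [hval, hval'] at hle
    have hn : (0 : ℝ) < 1 / (n : ℝ) := one_div_pos.2 (Nat.cast_pos.2 (NeZero.pos n))
    have := mul_lt_mul_of_pos_left hlt hn
    linarith
  have hcl : IsClosed μ.support := Measure.isClosed_support
  rcases hR0.eq_or_lt with hR1 | hR1
  · -- degenerate case `ρ = 0` : `μ = δ_0`
    rw [← hR1, Metric.closedBall_zero, Set.singleton_subset_iff]
    have hne : μ.support.Nonempty := by
      by_contra hemp
      rw [Set.not_nonempty_iff_eq_empty] at hemp
      have := Measure.support_mem_ae (μ := μ)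
      rw [hemp, mem_ae_iff, Set.compl_empty, measure_univ] at this
      exact one_ne_zero this
    obtain ⟨z, hz⟩ := hne
    have := hsub hz
    rw [← hR1, Metric.closedBall_zero] at this
    rwa [← Set.mem_singleton_iff.1 this]
  · -- `R > 0` : the closed ball is the closure of the punctured open ball
    intro z hz
    rw [mem_closedBall_zero_iff] at hz
    rw [← hcl.closure_eq, Metric.mem_closure_iff]
    intro ε hε
    by_cases hz0 : z = 0
    · obtain ⟨δ, hδ0, hδ⟩ := exists_between (lt_min hR1 hε)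
      refine ⟨(δ : ℂ), hint _ ?_ ?_, ?_⟩
      · rw [Complex.norm_real, Real.norm_eq_abs, abs_of_pos hδ0]; exact hδ0
      · rw [Complex.norm_real, Real.norm_eq_abs, abs_of_pos hδ0]
        exact hδ.trans_le (min_le_left _ _)
      · rw [hz0, dist_zero_left, Complex.norm_real, Real.norm_eq_abs, abs_of_pos hδ0]
        exact hδ.trans_le (min_le_right _ _)
    · have hzpos : 0 < ‖z‖ := norm_pos_iff.2 hz0
      obtain ⟨δ, hδ0, hδ⟩ := exists_between (lt_min one_pos (div_pos hε hzpos))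
      have hδ1 : δ < 1 := hδ.trans_le (min_le_left _ _)
      have hδ2 : δ < ε / ‖z‖ := hδ.trans_le (min_le_right _ _)
      refine ⟨((1 - δ : ℝ) : ℂ) * z, hint _ ?_ ?_, ?_⟩
      · rw [norm_mul, Complex.norm_real, Real.norm_eq_abs, abs_of_pos (by linarith)]
        exact mul_pos (by linarith) hzpos
      · rw [norm_mul, Complex.norm_real, Real.norm_eq_abs, abs_of_pos (by linarith)]
        nlinarith
      · rw [dist_eq_norm]
        have h1 : z - ((1 - δ : ℝ) : ℂ) * z = ((δ : ℝ) : ℂ) * z := by push_cast; ring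
        rw [h1, norm_mul, Complex.norm_real, Real.norm_eq_abs, abs_of_pos hδ0]
        rwa [lt_div_iff₀ hzpos] at hδ2

end Support

end Pool.Agent.Helper53.VarProfile
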